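import Mathlib
import Pool.Agent.W811.Stu.Base

/-!
Monotonicity of the Fibonacci spectral dimension: trace polynomials, basic facts.
-/

set_option autoImplicit false

open Polynomial
open scoped ENNReal NNReal

namespace Pool.Agent.W745.Fib

open Pool.Agent.W811.Stu

/-- the digits of the golden mean -/
def one : ℕ → ℕ := fun _ => 1

/-- trace polynomials in the energy: `1, E/2, (E-λ)/2, ...` -/
noncomputable def P (lam : ℝ) : ℕ → ℝ[X]
  | 0 => 1
  | 1 => C (1 / 2) * X
  | 2 => C (1 / 2) * (X - C lam)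
  | n + 3 => C 2 * P lam (n + 2) * P lam (n + 1) - P lam n

/-- their derivatives with respect to `λ` -/
noncomputable def R (lam : ℝ) : ℕ → ℝ[X]
  | 0 => 0
  | 1 => 0
  | 2 => C (-(1 / 2))
  | n + 3 => C 2 * R lam (n + 2) * P lam (n + 1) + C 2 * P lam (n + 2) * R lam (n + 1) - R lam n

/-- value -/
noncomputable def tr (lam : ℝ) (n : ℕ) (E : ℝ) : ℝ := (P lam n).eval E
/-- `∂/∂E` -/
noncomputable def dE (lam : ℝ) (n : ℕ) (E : ℝ) : ℝ := (derivative (P lam n)).eval E
/-- `∂/∂λ` -/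
noncomputable def dL (lam : ℝ) (n : ℕ) (E : ℝ) : ℝ := (R lam n).eval E
/-- `∂²/∂E²` -/
noncomputable def dEE (lam : ℝ) (n : ℕ) (E : ℝ) : ℝ := (derivative (derivative (P lam n))).eval E
/-- `∂²/∂E∂λ` -/
noncomputable def dLE (lam : ℝ) (n : ℕ) (E : ℝ) : ℝ := (derivative (R lam n)).eval E

lemma tr_zero (lam E : ℝ) : tr lam 0 E = 1 := by simp [tr, P]
lemma tr_one (lam E : ℝ) : tr lam 1 E = E / 2 := by simp [tr, P]; ring
lemma tr_two (lam E : ℝ) : tr lam 2 E = (E - lam) / 2 := by simp [tr, P]; ring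
lemma tr_rec (lam : ℝ) (n : ℕ) (E : ℝ) :
    tr lam (n + 3) E = 2 * tr lam (n + 2) E * tr lam (n + 1) E - tr lam n E := by
  simp [tr, P]

lemma dE_zero (lam E : ℝ) : dE lam 0 E = 0 := by simp [dE, P]
lemma dE_one (lam E : ℝ) : dE lam 1 E = 1 / 2 := by simp [dE, P]
lemma dE_two (lam E : ℝ) : dE lam 2 E = 1 / 2 := by simp [dE, P]
lemma dE_rec (lam : ℝ) (n : ℕ) (E : ℝ) :
    dE lam (n + 3) E = 2 * dE lam (n + 2) E * tr lam (n + 1) E +
      2 * tr lam (n + 2) E * dE lam (n + 1) E - dE lam n E := by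
  simp [dE, tr, P]

lemma dL_zero (lam E : ℝ) : dL lam 0 E = 0 := by simp [dL, R]
lemma dL_one (lam E : ℝ) : dL lam 1 E = 0 := by simp [dL, R]
lemma dL_two (lam E : ℝ) : dL lam 2 E = -(1 / 2) := by simp [dL, R]
lemma dL_rec (lam : ℝ) (n : ℕ) (E : ℝ) :
    dL lam (n + 3) E = 2 * dL lam (n + 2) E * tr lam (n + 1) E +
      2 * tr lam (n + 2) E * dL lam (n + 1) E - dL lam n E := by
  simp [dL, tr, R]

lemma dEE_zero (lam E : ℝ) : dEE lam 0 E = 0 := by simp [dEE, P]
lemma dEE_one (lam E : ℝ) : dEE lam 1 E = 0 := by simp [dEE, P]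
lemma dEE_two (lam E : ℝ) : dEE lam 2 E = 0 := by simp [dEE, P]
lemma dEE_rec (lam : ℝ) (n : ℕ) (E : ℝ) :
    dEE lam (n + 3) E = 2 * dEE lam (n + 2) E * tr lam (n + 1) E +
      4 * dE lam (n + 2) E * dE lam (n + 1) E +
      2 * tr lam (n + 2) E * dEE lam (n + 1) E - dEE lam n E := by
  simp [dEE, dE, tr, P]; ring

lemma dLE_zero (lam E : ℝ) : dLE lam 0 E = 0 := by simp [dLE, R]
lemma dLE_one (lam E : ℝ) : dLE lam 1 E = 0 := by simp [dLE, R]
lemma dLE_two (lam E : ℝ) : dLE lam 2 E = 0 := by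
  have : (C (-(1 / 2)) : ℝ[X]) = C (-(1 / 2)) := rfl
  unfold dLE
  rw [R, derivative_C, eval_zero]
lemma dLE_rec (lam : ℝ) (n : ℕ) (E : ℝ) :
    dLE lam (n + 3) E = 2 * dLE lam (n + 2) E * tr lam (n + 1) E +
      2 * dL lam (n + 2) E * dE lam (n + 1) E + 2 * dE lam (n + 2) E * dL lam (n + 1) E +
      2 * tr lam (n + 2) E * dLE lam (n + 1) E - dLE lam n E := by
  simp [dLE, dL, dE, tr, R]; ring

/-- three step induction -/
lemma ind3 {p : ℕ → Prop} (h0 : p 0) (h1 : p 1) (h2 : p 2)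
    (h : ∀ n, p n → p (n + 1) → p (n + 2) → p (n + 3)) (n : ℕ) : p n := by
  have : p n ∧ p (n + 1) ∧ p (n + 2) := by
    induction n with
    | zero => exact ⟨h0, h1, h2⟩
    | succ n ih => exact ⟨ih.2.1, ih.2.2, h n ih.1 ih.2.1 ih.2.2⟩
  exact this.1

/-- the orbit of the starting line -/
lemma orb_eq (lam E : ℝ) (m : ℕ) :
    orb one (lin lam E) m = ⟨tr lam m E, tr lam (m + 1) E, tr lam (m + 2) E⟩ := by
  induction m with
  | zero => simp [orb, lin, tr_zero, tr_one, tr_two]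
  | succ m ih =>
    rw [orb, ih]
    simp [one, stepT, stepR, stepS, tr_rec]

lemma orb_y (lam E : ℝ) (m : ℕ) : (orb one (lin lam E) m).y = tr lam (m + 1) E := by
  rw [orb_eq]

lemma onS (lam E : ℝ) (m : ℕ) :
    OnS (lam / 2) ⟨tr lam m E, tr lam (m + 1) E, tr lam (m + 2) E⟩ := by
  rw [← orb_eq]
  exact (onS_lin lam E).orb one m

/-! ### derivatives -/

lemma hasDeriv_tr (lam : ℝ) (n : ℕ) (E : ℝ) : HasDerivAt (tr lam n) (dE lam n E) E :=
  (P lam n).hasDerivAt E

lemma hasDeriv_dE (lam : ℝ) (n : ℕ) (E : ℝ) : HasDerivAt (dE lam n) (dEE lam n E) E :=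
  (derivative (P lam n)).hasDerivAt E

lemma hasDeriv_dL (lam : ℝ) (n : ℕ) (E : ℝ) : HasDerivAt (dL lam n) (dLE lam n E) E :=
  (R lam n).hasDerivAt E

lemma hasDeriv_tr_lam (lam : ℝ) (n : ℕ) (E : ℝ) :
    HasDerivAt (fun l => tr l n E) (dL lam n E) lam := by
  revert n
  apply ind3
  · simp only [tr_zero, dL_zero]; exact hasDerivAt_const _ _
  · simp only [tr_one, dL_one]; exact hasDerivAt_const _ _
  · simp only [tr_two, dL_two]
    have := ((hasDerivAt_id lam).const_sub E).div_const 2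
    exact this.congr_deriv (by norm_num)
  · intro n h0 h1 h2
    simp only [tr_rec, dL_rec]
    exact ((h2.const_mul 2).mul h1).sub h0

lemma hasDeriv_dE_lam (lam : ℝ) (n : ℕ) (E : ℝ) :
    HasDerivAt (fun l => dE l n E) (dLE lam n E) lam := by
  revert n
  apply ind3
  · simp only [dE_zero, dLE_zero]; exact hasDerivAt_const _ _
  · simp only [dE_one, dLE_one]; exact hasDerivAt_const _ _
  · simp only [dE_two, dLE_two]; exact hasDerivAt_const _ _
  · intro n h0 h1 h2
    simp only [dE_rec, dLE_rec]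
    have a1 := hasDeriv_tr_lam lam (n + 1) E
    have a2 := hasDeriv_tr_lam lam (n + 2) E
    have := (((h2.const_mul 2).mul a1).add ((a2.const_mul 2).mul h1)).sub h0
    exact this.congr_deriv (by ring)

/-- all functions are jointly smooth -/
lemma contDiff_tr (n : ℕ) : ContDiff ℝ ⊤ (fun p : ℝ × ℝ => tr p.1 n p.2) := by
  revert n
  apply ind3
  · simp only [tr_zero]; exact contDiff_const
  · simp only [tr_one]; fun_prop
  · simp only [tr_two]; fun_prop
  · intro n h0 h1 h2
    simp only [tr_rec]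
    exact ((contDiff_const.mul h2).mul h1).sub h0

lemma contDiff_dE (n : ℕ) : ContDiff ℝ ⊤ (fun p : ℝ × ℝ => dE p.1 n p.2) := by
  revert n
  apply ind3
  · simp only [dE_zero]; exact contDiff_const
  · simp only [dE_one]; fun_prop
  · simp only [dE_two]; fun_prop
  · intro n h0 h1 h2
    simp only [dE_rec]
    exact (((contDiff_const.mul h2).mul (contDiff_tr _)).add
      ((contDiff_const.mul (contDiff_tr _)).mul h1)).sub h0

lemma contDiff_dL (n : ℕ) : ContDiff ℝ ⊤ (fun p : ℝ × ℝ => dL p.1 n p.2) := by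
  revert n
  apply ind3
  · simp only [dL_zero]; exact contDiff_const
  · simp only [dL_one]; exact contDiff_const
  · simp only [dL_two]; exact contDiff_const
  · intro n h0 h1 h2
    simp only [dL_rec]
    exact (((contDiff_const.mul h2).mul (contDiff_tr _)).add
      ((contDiff_const.mul (contDiff_tr _)).mul h1)).sub h0

lemma cont_tr (lam : ℝ) (n : ℕ) : Continuous (tr lam n) := (P lam n).continuous
lemma cont_dE (lam : ℝ) (n : ℕ) : Continuous (dE lam n) := (derivative (P lam n)).continuous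

/-- the field `fV` along the starting line -/
lemma Vy_eq {lam : ℝ} (h : lam ≠ 0) (m : ℕ) (E : ℝ) :
    Vy one m (lin lam E) = -lam * dE lam (m + 1) E := by
  have h1 := hasDeriv_level h one m E
  have h2 : (fun e => (orb one (lin lam e) m).y) = tr lam (m + 1) := by
    funext e; exact orb_y lam e m
  rw [h2] at h1
  have := h1.unique (hasDeriv_tr lam (m + 1) E)
  rw [← this]
  field_simp

/-! ### degrees -/

lemma P_deg (lam : ℝ) (n : ℕ) :
    (P lam n).natDegree = Nat.fib n ∧ (1 ≤ n → (P lam n).leadingCoeff = 1 / 2) := by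
  revert n
  have hX : (X - C lam : ℝ[X]).natDegree = 1 := natDegree_X_sub_C lam
  have h12 : (1 / 2 : ℝ) ≠ 0 := by norm_num
  apply ind3
  · exact ⟨by simp [P], by intro h; omega⟩
  · refine ⟨?_, fun _ => ?_⟩
    · rw [P, natDegree_C_mul h12, natDegree_X]; rfl
    · rw [P, leadingCoeff_mul, leadingCoeff_C, leadingCoeff_X, mul_one]
  · refine ⟨?_, fun _ => ?_⟩
    · rw [P, natDegree_C_mul h12, hX]; rfl
    · rw [P, leadingCoeff_mul, leadingCoeff_C, leadingCoeff_X_sub_C, mul_one]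
  · intro n h0 h1 h2
    have c1 := h1.2 (by omega)
    have c2 := h2.2 (by omega)
    have n1 : P lam (n + 1) ≠ 0 := by
      intro h; rw [h, leadingCoeff_zero] at c1; norm_num at c1
    have n2 : P lam (n + 2) ≠ 0 := by
      intro h; rw [h, leadingCoeff_zero] at c2; norm_num at c2
    have n3 : (C (2:ℝ) * P lam (n + 2)) ≠ 0 := mul_ne_zero (by
      intro h; have := C_eq_zero.1 h; norm_num at this) n2
    have dg : (C (2:ℝ) * P lam (n + 2) * P lam (n + 1)).natDegree =
        Nat.fib (n + 2) + Nat.fib (n + 1) := by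
      rw [natDegree_mul n3 n1, natDegree_C_mul (by norm_num), h2.1, h1.1]
    have lc : (C (2:ℝ) * P lam (n + 2) * P lam (n + 1)).leadingCoeff = 1 / 2 := by
      rw [leadingCoeff_mul, leadingCoeff_mul, leadingCoeff_C, c1, c2]; norm_num
    have f3 : Nat.fib (n + 3) = Nat.fib (n + 2) + Nat.fib (n + 1) := by
      rw [show n + 3 = (n + 1) + 2 by ring, Nat.fib_add_two, add_comm]
    have fpos : 0 < Nat.fib (n + 1) := Nat.fib_pos.2 (by omega)
    have fle : Nat.fib n ≤ Nat.fib (n + 2) := by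
      rw [Nat.fib_add_two]; omega
    have lt : (P lam n).natDegree < (C (2:ℝ) * P lam (n + 2) * P lam (n + 1)).natDegree := by
      rw [dg, h0.1]; omega
    refine ⟨?_, fun _ => ?_⟩
    · rw [P, natDegree_sub_eq_left_of_natDegree_lt lt, dg, f3]
    · rw [P, leadingCoeff_sub_of_degree_lt, lc]
      exact degree_lt_degree lt

lemma natDegree_P (lam : ℝ) (n : ℕ) : (P lam n).natDegree = Nat.fib n := (P_deg lam n).1

lemma P_ne_zero (lam : ℝ) (n : ℕ) : P lam n ≠ 0 := by
  rcases Nat.eq_zero_or_pos n with h | h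
  · subst h; simp [P]
  · intro h0
    have := (P_deg lam n).2 h
    rw [h0, leadingCoeff_zero] at this
    norm_num at this

lemma natDegree_R (lam : ℝ) (n : ℕ) : (R lam n).natDegree ≤ Nat.fib n - 1 := by
  revert n
  have hmul : ∀ (p q : ℝ[X]) (a b : ℕ), p.natDegree ≤ a → q.natDegree ≤ b →
      (C (2:ℝ) * p * q).natDegree ≤ a + b := by
    intro p q a b hp hq
    refine le_trans natDegree_mul_le (add_le_add (le_trans natDegree_mul_le ?_) hq)
    rw [natDegree_C, zero_add]; exact hp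
  apply ind3
  · simp [R]
  · simp [R]
  · rw [R, natDegree_C]; exact Nat.zero_le _
  · intro n h0 h1 h2
    have f3 : Nat.fib (n + 3) = Nat.fib (n + 2) + Nat.fib (n + 1) := by
      rw [show n + 3 = (n + 1) + 2 by ring, Nat.fib_add_two, add_comm]
    have fpos : 0 < Nat.fib (n + 1) := Nat.fib_pos.2 (by omega)
    have fpos2 : 0 < Nat.fib (n + 2) := Nat.fib_pos.2 (by omega)
    have fle : Nat.fib n ≤ Nat.fib (n + 2) := by
      rw [Nat.fib_add_two]; omega
    rw [R]
    refine le_trans (natDegree_sub_le _ _) (max_le (le_trans (natDegree_add_le _ _)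
      (max_le ?_ ?_)) ?_)
    · refine le_trans (hmul _ _ _ _ h2 (natDegree_P lam (n + 1)).le) ?_
      omega
    · refine le_trans (hmul _ _ _ _ (natDegree_P lam (n + 2)).le h1) ?_
      omega
    · omega

/-- band edges weighted by the derivatives -/
noncomputable def Q (s : ℝ) (n : ℕ) (lam : ℝ) : ℝ≥0∞ :=
  ∑' g : {E : ℝ // tr lam n E = 1}, ENNReal.ofReal (|dE lam n g| ^ (-s))

end Pool.Agent.W745.Fib
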