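import Mathlib
import Pool.Agent.W745.Fib.Defs

/-!
Monotonicity of the Fibonacci spectral dimension: statements of the independent parts.

Notation: `tr lam n E` is the trace polynomial `P_n` (`P_0 = 1, P_1 = E/2, P_2 = (E-λ)/2`,
`P_{n+3} = 2 P_{n+2} P_{n+1} - P_n`), `dE, dL, dEE, dLE` its partial derivatives.
-/

set_option autoImplicit false

open Polynomial Set
open scoped ENNReal NNReal

namespace Pool.Agent.W745.Fib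

open Pool.Agent.W811.Stu

/-! ### fixed level, dependence on the coupling -/

/-- (A) no critical points in the plane off `λ = 0` -/
def SA : Prop := ∀ lam : ℝ, lam ≠ 0 → ∀ n : ℕ, 1 ≤ n → ∀ E : ℝ, dE lam n E = 0 → dL lam n E ≠ 0

/-- (Z) zeros, level sets and critical points of the trace polynomials -/
def SZ : Prop := ∀ lam : ℝ, lam ≠ 0 → ∀ n : ℕ, 1 ≤ n →
  (∀ E : ℝ, |tr lam n E| < cc (lam / 2) → dE lam n E ≠ 0) ∧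
  (∀ c : ℝ, |c| < cc (lam / 2) → {E : ℝ | tr lam n E = c}.Finite ∧
    {E : ℝ | tr lam n E = c}.ncard = Nat.fib n) ∧
  {E : ℝ | dE lam n E = 0}.Finite ∧ {E : ℝ | dE lam n E = 0}.ncard = Nat.fib n - 1 ∧
  (∀ E : ℝ, dE lam n E = 0 → tr lam n E * dEE lam n E < 0)

/-- (RO) parametrisation of simple zeros depending on a parameter `l > 0` -/
def SRo : Prop := ∀ (F : ℝ × ℝ → ℝ) (a b : ℝ → ℝ → ℝ), ContDiff ℝ 1 F →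
  (∀ l E, HasDerivAt (fun e => F (l, e)) (a l E) E) →
  (∀ l E, HasDerivAt (fun m => F (m, E)) (b l E) l) → ∀ N : ℕ,
  (∀ l : ℝ, 0 < l → {E : ℝ | F (l, E) = 0}.Finite ∧ {E : ℝ | F (l, E) = 0}.ncard = N ∧
    ∀ E, F (l, E) = 0 → a l E ≠ 0) →
  ∃ e : Fin N → ℝ → ℝ, (∀ l : ℝ, 0 < l → Function.Injective (fun i => e i l) ∧
      {E : ℝ | F (l, E) = 0} = Set.range (fun i => e i l)) ∧
    ∀ i, ∀ l : ℝ, 0 < l → HasDerivAt (e i) (-(b l (e i l)) / a l (e i l)) l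

/-- (B) the critical values increase in absolute value -/
def SB : Prop := ∀ lam : ℝ, 0 < lam → ∀ n : ℕ, 1 ≤ n → ∀ E : ℝ, dE lam n E = 0 →
  0 < tr lam n E * dL lam n E

/-- (C) convexity inequality -/
def SC : Prop := ∀ lam : ℝ, 0 < lam → ∀ n : ℕ, 1 ≤ n → ∀ E : ℝ,
  0 ≤ dLE lam n E * dE lam n E - dL lam n E * dEE lam n E

/-- (M) monotonicity of the sums over the band edges -/
def SM : Prop := ∀ s : ℝ, 0 ≤ s → ∀ n : ℕ, 1 ≤ n → ∀ a b : ℝ, 0 < a → a ≤ b → Q s n b ≤ Q s n a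

/-! ### fixed coupling -/

/-- (BD) bounded orbits -/
def SBd : Prop := ∀ lam : ℝ, lam ≠ 0 → ∃ C : ℝ, 1 ≤ C ∧ ∀ n : ℕ, 1 ≤ n → ∀ E : ℝ,
  |tr lam n E| ≤ 1 → (∀ j, j ≤ n + 1 → |tr lam j E| ≤ C) ∧
    ∀ j, j < n → |tr lam j E| ≤ 1 ∨ |tr lam (j + 1) E| ≤ 1

/-- (RT) ratios of consecutive derivatives -/
def SRt : Prop := ∀ lam : ℝ, lam ≠ 0 → ∀ κ : ℝ, 0 ≤ κ → κ < cc (lam / 2) → ∃ C : ℝ, 1 ≤ C ∧
  ∀ n : ℕ, 3 ≤ n → ∀ E : ℝ, |tr lam n E| ≤ κ →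
    |dE lam (n - 1) E| ≤ C * |dE lam n E| ∧
    |dE lam (n + 1) E| ≤ C * (1 + |tr lam (n - 1) E|) * |dE lam n E|

/-- (DI) distortion and bands -/
def SDi : Prop := ∀ lam : ℝ, lam ≠ 0 → ∀ κ : ℝ, 0 < κ → κ < cc (lam / 2) → ∃ C : ℝ, 1 ≤ C ∧
  ∀ n : ℕ, 1 ≤ n →
  (∀ E E' : ℝ, (∀ e ∈ Set.uIcc E E', |tr lam n e| ≤ κ) →
    |dE lam n E| ≤ C * |dE lam n E'| ∧ |E - E'| * |dE lam n E| ≤ C ∧
    |tr lam n E - tr lam n E'| ≤ C * (|E - E'| * |dE lam n E|)) ∧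
  (∀ E : ℝ, |tr lam n E| ≤ κ → ∃ u v : ℝ, u ≤ E ∧ E ≤ v ∧ u < v ∧
    (∀ e ∈ Set.Icc u v, |tr lam n e| ≤ κ) ∧
    ((tr lam n u = -κ ∧ tr lam n v = κ) ∨ (tr lam n u = κ ∧ tr lam n v = -κ)))

/-- (GR) growth of the derivatives in the bands -/
def SGr : Prop := ∀ lam : ℝ, lam ≠ 0 → ∃ c : ℝ, 0 < c ∧ ∀ n : ℕ, 3 ≤ n → ∀ E : ℝ,
  |tr lam n E| ≤ 1 → c * n ≤ |dE lam n E|

/-- the dual energy -/
noncomputable def dt (lam : ℝ) (n : ℕ) (g : ℝ) : ℝ := 2 * tr lam (n - 1) g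
/-- the dual coupling constant (`± λ`) -/
noncomputable def dl (lam : ℝ) (n : ℕ) (g : ℝ) : ℝ := 2 * (tr lam (n + 1) g - tr lam (n - 1) g)

/-- (DU) duality: reversed orbits of band edges -/
def SDu : Prop := ∀ (lam g : ℝ) (n : ℕ), 1 ≤ n → tr lam n g = 1 →
  (dl lam n g = lam ∨ dl lam n g = -lam) ∧
  (∀ j, j ≤ n → tr (dl lam n g) j (dt lam n g) = tr lam (n - j) g) ∧
  (lam ≠ 0 → ∀ k m : ℕ, 2 ≤ m → k + m = n →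
    dE lam k g * dE (dl lam n g) (m - 1) (dt lam n g)
        - dE lam (k + 1) g * dE (dl lam n g) m (dt lam n g)
      = (-1) ^ m * (dE lam n g / dl lam n g) * (tr lam (k + 2) g - tr lam (k + 1) g * tr lam k g) ∧
    dE lam (k + 2) g * dE (dl lam n g) m (dt lam n g)
        - dE lam k g * dE (dl lam n g) (m - 2) (dt lam n g)
      = (-1) ^ m * (dE lam n g / dl lam n g) * (tr lam (k + 1) g - tr lam (k + 2) g * tr lam k g))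

/-- (SG) sign rule -/
def SSg : Prop := ∀ lam : ℝ, lam ≠ 0 → ∀ k m : ℕ, 3 ≤ k → 3 ≤ m → ∀ g : ℝ,
  tr lam (k + m) g = 1 → |tr lam k g| ≤ 1 →
  0 < (-1) ^ m * dl lam (k + m) g * dE lam (k + m) g * dE lam k g *
    dE (dl lam (k + m) g) m (dt lam (k + m) g)

/-- (K1) product inequality -/
def SK1 : Prop := ∀ lam : ℝ, lam ≠ 0 → ∃ c : ℝ, 0 < c ∧ ∀ k m : ℕ, 6 ≤ k → 3 ≤ m → ∀ g : ℝ,
  tr lam (k + m) g = 1 → |tr lam k g| ≤ 1 →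
  c * |dE lam k g| * |dE (dl lam (k + m) g) m (dt lam (k + m) g)| ≤ |dE lam (k + m) g|

/-- (K2) bounded multiplicity -/
def SK2 : Prop := ∀ lam : ℝ, lam ≠ 0 → ∃ m0 : ℕ, ∀ k m : ℕ, 6 ≤ k → 3 ≤ m →
  ∀ u v u' v' lam' : ℝ, u ≤ v → u' ≤ v' → (lam' = lam ∨ lam' = -lam) →
  (∀ e ∈ Set.Icc u v, |tr lam k e| ≤ 1) → (∀ e ∈ Set.Icc u' v', |tr lam' m e| ≤ 1) →
  {g : ℝ | g ∈ Set.Icc u v ∧ tr lam (k + m) g = 1 ∧ dl lam (k + m) g = lam' ∧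
    dt lam (k + m) g ∈ Set.Icc u' v'}.ncard ≤ m0

/-- (K) the band edges of level `k + m` in a band of level `k` -/
def SK : Prop := ∀ lam : ℝ, lam ≠ 0 → ∀ s : ℝ, 0 ≤ s → ∃ C : ℝ≥0, ∀ k m : ℕ, 6 ≤ k → 3 ≤ m →
  ∀ u v : ℝ, u ≤ v → (∀ e ∈ Set.Icc u v, |tr lam k e| ≤ 1) →
  ∑' g : {E : ℝ // E ∈ Set.Icc u v ∧ tr lam (k + m) E = 1},
      ENNReal.ofReal (|dE lam (k + m) g| ^ (-s))
    ≤ C * ENNReal.ofReal (|dE lam k u| ^ (-s)) * (Q s m lam + Q s m (-lam))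

/-- (RF) reflection -/
def SRf : Prop := ∀ lam : ℝ, lam ≠ 0 → ∀ s : ℝ, 0 ≤ s → ∃ C : ℝ≥0, ∀ m : ℕ, 1 ≤ m →
  Q s m (-lam) ≤ C * Q s m lam

/-- (FN) the sums are finite -/
def SFn : Prop := ∀ lam : ℝ, lam ≠ 0 → ∀ (s : ℝ) (n : ℕ), 1 ≤ n → Q s n lam ≠ ⊤

/-- (CV) covers by bands -/
def SCv : Prop := ∀ lam : ℝ, 0 < lam → ∀ s : ℝ≥0, dimH (Sp lam one) < s → ∀ ε : ℝ, 0 < ε →
  ∃ (N : ℕ) (k : Fin N → ℕ) (u v : Fin N → ℝ),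
    (∀ i, 6 ≤ k i ∧ u i ≤ v i ∧ ∀ e ∈ Set.Icc (u i) (v i), |tr lam (k i) e| ≤ 1) ∧
    ∑ i, |dE lam (k i) (u i)| ^ (-(s : ℝ)) ≤ ε ∧
    ∃ n0 : ℕ, ∀ n, n0 ≤ n → ∀ E, tr lam n E = 1 → ∃ i, E ∈ Set.Icc (u i) (v i)

/-- (BO) boundedness of the sums above the dimension -/
def SBo : Prop := ∀ lam : ℝ, 0 < lam → ∀ s : ℝ≥0, dimH (Sp lam one) < s →
  ∃ C : ℝ≥0, ∀ n : ℕ, 1 ≤ n → Q s n lam ≤ C

/-- (UP) upper bound of the dimension -/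
def SUp : Prop := ∀ lam : ℝ, 0 < lam → ∀ s C : ℝ≥0, (∀ n : ℕ, 1 ≤ n → Q s n lam ≤ C) →
  dimH (Sp lam one) ≤ s

/-- (AN) the dimension of the set of energies with bounded traces does not increase -/
def SAn : Prop := ∀ a b : ℝ, 0 < a → a ≤ b → dimH (Sp b one) ≤ dimH (Sp a one)

/-! ### the operator -/

/-- the frozen set -/
def FS (q : ℝ) : Set ℝ := {E : ℝ | ∀ ε : ℝ, ε > 0 → ∃ N : ℕ, ∃ ψ : ℤ → ℝ,
  (∀ n : ℤ, n ∉ Finset.Icc (-(N : ℤ)) (N : ℤ) → ψ n = 0) ∧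
  (∑ n ∈ Finset.Icc (-(N : ℤ) - 1) ((N : ℤ) + 1),
      (ψ (n + 1) + ψ (n - 1)
        + (if 1 - (Real.sqrt 5 - 1) / 2 ≤ Int.fract ((n : ℝ) * ((Real.sqrt 5 - 1) / 2))
            then q else 0) * ψ n
        - E * ψ n) ^ 2
    < ε ^ 2 * ∑ n ∈ Finset.Icc (-(N : ℤ)) (N : ℤ), ψ n ^ 2)}

/-- (ID1) the frozen set is contained in the set of bounded traces -/
def SId1 : Prop := ∀ q : ℝ, 0 < q → FS q ⊆ Sp q one

/-- (ID2) the converse -/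
def SId2 : Prop := ∀ q : ℝ, 0 < q → Sp q one ⊆ FS q

/-- (ID0) coupling constant zero -/
def SId0 : Prop := Set.Icc (-2 : ℝ) 2 ⊆ FS 0

/-- the Fibonacci operator with phase `ω` -/
def IsFib (q ω : ℝ) (T : lp (fun _ : ℤ => ℂ) 2 →L[ℂ] lp (fun _ : ℤ => ℂ) 2) : Prop :=
  ∀ (u : lp (fun _ : ℤ => ℂ) 2) (n : ℤ),
    (T u) n = u (n + 1) + u (n - 1)
      + ((if 1 - (Real.sqrt 5 - 1) / 2 ≤ Int.fract ((n : ℝ) * ((Real.sqrt 5 - 1) / 2) + ω)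
            then q else 0 : ℝ) : ℂ) * u n

/-- (OP) spectrum = bounded traces, for every phase -/
def SOp : Prop := ∀ q : ℝ, 0 < q → ∀ ω : ℝ,
  ∀ T : lp (fun _ : ℤ => ℂ) 2 →L[ℂ] lp (fun _ : ℤ => ℂ) 2, IsFib q ω T →
    {E : ℝ | (E : ℂ) ∈ spectrum ℂ T} = Sp q one

end Pool.Agent.W745.Fib
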