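import Pool.Agent.W745.Fib.An
import Pool.Agent.W753.FM.Bd
import Pool.Agent.W753.FM.Op
import Pool.Agent.W291.FM.K2
import Pool.Agent.W99.FM.Hull

/-!
Final theorems: monotonicity of the dimension of the Fibonacci spectrum.
-/

set_option autoImplicit false

open scoped ENNReal NNReal

namespace Pool.Agent.W745.Fib

open Pool.Agent.W811.Stu

theorem an_final : SAn := by
  have hBd := Pool.Agent.W753.FM.sbd
  have hRt := Pool.Agent.W753.FM.srt
  have hDi := Pool.Agent.W753.FM.sdi
  have hDu := Pool.Agent.W237.FM.du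
  exact an hBd hRt hDi (Pool.Agent.W291.FM.k2 hDu (ssg hDu) hRt hDi hBd)

theorem op_final : SOp := Pool.Agent.W753.FM.op Pool.Agent.W99.FM.Hull.hull

theorem fs_eq {q : ℝ} (hq : 0 < q) : FS q = Sp q one := by
  obtain ⟨h1, h2⟩ := Pool.Agent.W753.FM.fs op_final
  exact Set.Subset.antisymm (h1 q hq) (h2 q hq)

theorem dimH_FS_le (q : ℝ) : dimH (FS q) ≤ 1 := by
  have h := dimH_mono (Set.subset_univ (FS q))
  rw [Real.dimH_univ] at h
  exact h

theorem dimH_FS_zero : 1 ≤ dimH (FS 0) := by
  have h := dimH_mono Pool.Agent.W753.FM.id0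
  refine le_trans ?_ h
  have h2 : dimH (Set.Icc (-2 : ℝ) 2) = 1 := by
    have h3 := Real.dimH_of_nonempty_interior (E := ℝ) (s := Set.Icc (-2 : ℝ) 2) (by
      rw [interior_Icc]
      exact ⟨0, by norm_num, by norm_num⟩)
    rw [h3, Module.finrank_self, Nat.cast_one]
  rw [h2]

/-- the dimension of the frozen set is non-increasing -/
theorem fs_anti : AntitoneOn (fun q : ℝ => dimH (FS q)) (Set.Ici (0 : ℝ)) := by
  intro a ha b hb hab
  have ha' : (0:ℝ) ≤ a := ha
  rcases eq_or_lt_of_le ha' with h | h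
  · simp only
    rw [← h]
    exact le_trans (dimH_FS_le b) dimH_FS_zero
  · simp only
    rw [fs_eq h, fs_eq (lt_of_lt_of_le h hab)]
    exact an_final a b h hab

end Pool.Agent.W745.Fib
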