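import Pool.Agent.W745.Fib.LorE
import Pool.Agent.W112.FM.A
import Pool.Agent.W74.FM.Z
import Pool.Agent.W74.FM.B
import Pool.Agent.W237.FM.Ro
import Pool.Agent.W237.FM.Mo
import Pool.Agent.W237.FM.Du
import Pool.Agent.W443.FM.SC
import Pool.Agent.W7.FM.K
import Pool.Agent.W38.FM.RF
import Pool.Agent.W935.FM.CV
import Pool.Agent.W540.FM.BO
import Pool.Agent.W973.FM.Up

/-!
The dimension of the set of energies with bounded traces does not increase with the coupling.
-/

set_option autoImplicit false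

open scoped ENNReal NNReal

namespace Pool.Agent.W745.Fib

open Pool.Agent.W811.Stu

/-- assembly of the parts -/
theorem an_of (hM : SM) (hBo : SBo) (hUp : SUp) : SAn := by
  intro a b ha hab
  by_contra hc
  push Not at hc
  obtain ⟨s, h1, h2⟩ := ENNReal.lt_iff_exists_nnreal_btwn.1 hc
  obtain ⟨C, hC⟩ := hBo a ha s h1
  have h3 := hUp b (lt_of_lt_of_le ha hab) s C (fun n hn =>
    le_trans (hM s s.2 n hn a b ha hab) (hC n hn))
  exact absurd (lt_of_lt_of_le h2 h3) (lt_irrefl _)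

theorem an (hBd : SBd) (hRt : SRt) (hDi : SDi) (hK2 : SK2) : SAn := by
  have hZ := Pool.Agent.W74.FM.Z.z
  have hR := Pool.Agent.W237.FM.ro
  have hDu := Pool.Agent.W237.FM.du
  have hB := Pool.Agent.W74.FM.B.b Pool.Agent.W112.FM.sA hZ hR
  have hC := Pool.Agent.W443.FM.fm_C hB hZ
  have hM := Pool.Agent.W237.FM.mo hC hZ hR
  have hGr := gr hDi
  have hK1 := k1 hDu hBd hRt
  have hK := Pool.Agent.W7.FM.main hK1 hK2 hDu hDi hZ
  exact an_of hM (Pool.Agent.W540.FM.bo hK (Pool.Agent.W38.FM.rf hDi hZ) (Pool.Agent.W38.FM.fn hZ) (Pool.Agent.W935.FM.scv hDi hRt hGr hBd))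
    (Pool.Agent.W973.FM.Up.up hDi hGr)

end Pool.Agent.W745.Fib
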