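import Pool.Agent.W745.Fib.Stm

/-!
Lorentz cone estimates: forward data and backward functionals along the orbits of the trace map.
-/

set_option autoImplicit false

namespace Pool.Agent.W745.Fib

open Pool.Agent.W811.Stu

/-- the trace map -/
def T1 (p : P3) : P3 := stepS (stepR p)

/-- its tangent map -/
def dT (p u : P3) : P3 := dS (dR p u)

lemma Mir.T {p : P3} {s1 s2 s3 : L} (h : Mir p s1 s2 s3) :
    Mir (T1 p) (s3R p s2 s3) s3 s1 := h.R.S

lemma Dat.T {δ : ℝ} {p : P3} {s1 s2 s3 a b : L} {u : P3} (hM : Mir p s1 s2 s3)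
    (h : Dat δ p s1 s2 s3 a b u) :
    Dat δ (T1 p) (s3R p s2 s3) s3 s1 (pr (s3R p s2 s3) b) (a + pr s1 b) (dT p u) :=
  (h.R hM).S

lemma pr_adj (σ v w : L) : ip (pr σ v) w = ip v (pr σ w) := by
  unfold pr
  rw [ip_add_left, ip_smul_left, ip_add_right, ip_smul_right, ip_comm σ w, ip_comm v σ]
  ring

lemma pr_add (σ v w : L) : pr σ (v + w) = pr σ v + pr σ w := by
  unfold pr
  rw [ip_add_left, add_smul]
  abel

/-- a linear functional on tangent vectors represented by a pair of vectors of the cone -/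
structure Fn (δ s : ℝ) (p : P3) (s1 s2 s3 A B : L) (l : P3 → ℝ) : Prop where
  cA : Cn A
  cB : Cn B
  a1 : ip A s1 = 0
  b3 : ip B s3 = 0
  eq : ∀ a b u, Dat δ p s1 s2 s3 a b u → δ * s * l u = ip a A + ip b B

lemma Fn.step {δ s : ℝ} {p : P3} {s1 s2 s3 A B : L} {l : P3 → ℝ} (hM : Mir p s1 s2 s3)
    (h : Fn δ s (T1 p) (s3R p s2 s3) s3 s1 A B l) :
    Fn δ s p s1 s2 s3 B (pr s3 (A + B)) (fun u => l (dT p u)) := by
  obtain ⟨cA, cB, a1, b3, eq⟩ := h
  refine ⟨cB, Cn_pr hM.n3 (Cn_add cA cB), b3, ip_pr_self hM.n3, fun a b u hD => ?_⟩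
  have h1 := eq _ _ _ (Dat.T hM hD)
  rw [h1, ip_add_left, pr_adj, pr_adj, ← pr_adj s3 b (A + B)]
  have e1 : pr (s3R p s2 s3) A = A := by unfold pr; rw [a1, zero_smul, add_zero]
  have e2 : pr s1 B = B := by unfold pr; rw [b3, zero_smul, add_zero]
  have e3 : pr s3 b = b := by unfold pr; rw [hD.b3, zero_smul, add_zero]
  rw [e1, e2, e3, ip_add_right]
  ring

/-- the functional `u.x` at a point with `x = 1` -/
lemma Fn.base {δ : ℝ} {p : P3} {s1 s2 s3 : L} (hδ : δ ≠ 0) (hS : OnS δ p) (hM : Mir p s1 s2 s3)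
    (hx : p.x = 1) : ∃ s : ℝ, s * s = 1 ∧
      Fn δ s p s1 s2 s3 (s • wv p s1 s2 s3) (s • wv p s1 s2 s3) (fun u => u.x) := by
  have hn : 0 ≤ ip (wv p s1 s2 s3) (wv p s1 s2 s3) := by
    rw [wv_norm hS hM, hx]; simp
  obtain ⟨s, hs, hC⟩ : ∃ s : ℝ, s * s = 1 ∧ Cn (s • wv p s1 s2 s3) := by
    rcases Cn_or hn with h | h
    · exact ⟨1, by norm_num, by rwa [one_smul]⟩
    · exact ⟨-1, by norm_num, by rwa [neg_one_smul]⟩
  refine ⟨s, hs, hC, hC, ?_, ?_, fun a b u hD => ?_⟩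
  · rw [ip_smul_left, wv_1 hM, mul_zero]
  · rw [ip_smul_left, wv_3 hM, mul_zero]
  · have := ux_eq hD
    rw [← ip_add_left, ip_smul_right, ← this]
    ring

lemma sq_le_of_pr {σ v : L} (hσ : ip σ σ = -1) (hv : Cn v) : |ip v σ| ^ 2 ≤ ip (pr σ v) (pr σ v) := by
  rw [norm_pr hσ, sq_abs]
  linarith [hv.2]

lemma norm_le_pr {σ v : L} (hσ : ip σ σ = -1) : ip v v ≤ ip (pr σ v) (pr σ v) := by
  rw [norm_pr hσ]
  nlinarith [sq_nonneg (ip v σ)]

/-- forward estimate over two steps -/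
lemma fwd2 {δ : ℝ} {p : P3} {s1 s2 s3 a b : L} {u : P3} (hM : Mir p s1 s2 s3)
    (hD : Dat δ p s1 s2 s3 a b u) (ha : Cn a) (hb : Cn b) :
    ∃ ν : ℝ, 0 ≤ ν ∧
      ν ^ 2 ≤ ip (pr (s3R p s2 s3) b + pr (s3R p s2 s3) (a + pr s1 b))
        (pr (s3R p s2 s3) b + pr (s3R p s2 s3) (a + pr s1 b)) ∧
      |δ| * |u.y| ≤ (|1 - p.y ^ 2| + |gA p|) * ν := by
  have hM' := Mir.T hM
  refine ⟨|ip b s2| + |ip b s1|, by positivity, ?_, ?_⟩
  · have c1 : Cn (pr (s3R p s2 s3) b) := Cn_pr hM'.n1 hb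
    have c2 : Cn (a + pr s1 b) := Cn_add ha (Cn_pr hM.n1 hb)
    have c3 : Cn (pr (s3R p s2 s3) (a + pr s1 b)) := Cn_pr hM'.n1 c2
    refine norm_add c1 c3 ?_ ?_
    · have := sq_le_of_pr hM'.n1 hb
      have e : ip b (s3R p s2 s3) = -ip b s2 := by
        rw [s3R, ip_sub_right, ip_smul_right, hD.b3]; ring
      rw [e, abs_neg] at this
      exact this
    · refine le_trans ?_ (norm_le_pr hM'.n1)
      have h1 := sq_le_of_pr hM.n1 hb
      have h2 := ip_nonneg ha (Cn_pr hM.n1 hb)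
      rw [ip_add_left, ip_add_right, ip_add_right, ip_comm (pr s1 b) a]
      linarith [ha.2]
  · have h1 := hD.uy
    have h2 : |δ| * |u.y| = |(1 - p.y ^ 2) * ip b s1 - gA p * ip b s2| := by
      rw [← abs_mul, h1, abs_neg]
    rw [h2]
    calc |(1 - p.y ^ 2) * ip b s1 - gA p * ip b s2|
        ≤ |(1 - p.y ^ 2) * ip b s1| + |gA p * ip b s2| := abs_sub _ _
      _ = |1 - p.y ^ 2| * |ip b s1| + |gA p| * |ip b s2| := by rw [abs_mul, abs_mul]
      _ ≤ _ := by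
        have a1 := abs_nonneg (1 - p.y ^ 2)
        have a2 := abs_nonneg (gA p)
        have a3 := abs_nonneg (ip b s1)
        have a4 := abs_nonneg (ip b s2)
        nlinarith [mul_nonneg a1 a4, mul_nonneg a2 a3]

/-- the second vector of the data grows -/
lemma mono1 {a b s1 : L} (h1 : ip s1 s1 = -1) (ha : Cn a) (hb : Cn b) {ν : ℝ}
    (h : ν ^ 2 ≤ ip b b) : ν ^ 2 ≤ ip (a + pr s1 b) (a + pr s1 b) := by
  have h2 := ip_nonneg ha (Cn_pr h1 hb)
  have h3 := norm_le_pr (v := b) h1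
  rw [ip_add_left, ip_add_right, ip_add_right, ip_comm (pr s1 b) a]
  linarith [ha.2]

/-- backward estimate over two steps: `A`, `B` represent the functional at `T1 (T1 p)`; the mirrors
there are `s3R (T1 p) s3 s1`, `s1`, `s3R p s2 s3` -/
lemma bwd2 {δ s : ℝ} {p : P3} {s1 s2 s3 A B : L} {l : P3 → ℝ} (hδ : δ ≠ 0) (hs : s * s = 1)
    (hS : OnS δ p) (hM : Mir p s1 s2 s3) (hl : ∀ u, l (lc (-1) u 0 u) = -l u)
    (h : Fn δ s (T1 (T1 p)) (s3R (T1 p) s3 s1) s1 (s3R p s2 s3) A B l) :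
    ∃ ν : ℝ, 0 ≤ ν ∧ ν ^ 2 ≤ ip (pr s3 (B + pr s1 (A + B))) (pr s3 (B + pr s1 (A + B))) ∧
      δ ^ 2 * |l (fV (T1 (T1 p)))| ≤
        (|gX (T1 (T1 p))| * (2 * |(T1 p).y| + 1) + |gB (T1 (T1 p))|) * ν := by
  have hM1 := Mir.T hM
  have hM2 := Mir.T hM1
  set q := T1 (T1 p) with hq
  have hSq : OnS δ q := hS.R.S.R.S
  have cAB : Cn (A + B) := Cn_add h.cA h.cB
  refine ⟨|ip B s3| + |ip B s1|, by positivity, ?_, ?_⟩
  · rw [pr_add]
    have c1 : Cn (pr s1 (A + B)) := Cn_pr hM.n1 cAB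
    refine norm_add (Cn_pr hM.n3 h.cB) (Cn_pr hM.n3 c1) (sq_le_of_pr hM.n3 h.cB) ?_
    refine le_trans ?_ (norm_le_pr hM.n3)
    rw [pr_add]
    have c2 := Cn_pr hM.n1 h.cA
    have c3 := Cn_pr hM.n1 h.cB
    have h1 := ip_nonneg c2 c3
    have h2 := sq_le_of_pr hM.n1 h.cB
    rw [ip_add_left, ip_add_right, ip_add_right, ip_comm (pr s1 B) (pr s1 A)]
    linarith [c2.2]
  · have e1 := h.eq _ _ _ (b0_dat hδ hSq hM2)
    rw [ip_zero_left, zero_add, hl] at e1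
    have e2 : δ * ip (b0 δ q (s3R (T1 p) s3 s1) s1 (s3R p s2 s3)) B =
        gX q * (2 * (T1 p).y * ip B s1 - ip B s3) + gB q * ip B s1 := by
      have e3 : ip B (s3R (T1 p) s3 s1) = 2 * (T1 p).y * ip B s1 - ip B s3 := by
        rw [s3R, ip_sub_right, ip_smul_right]
      rw [b0, ip_smul_left, ip_sub_left, ip_add_left, ip_smul_left, ip_smul_left, ip_smul_left,
        ip_comm _ B, ip_comm _ B, ip_comm _ B, e3, h.b3]
      field_simp
      ring
    have habs : |s| = 1 := by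
      have : |s| * |s| = 1 := by rw [← abs_mul, hs, abs_one]
      nlinarith [abs_nonneg s]
    have e4 : δ ^ 2 * |l (fV q)| = |δ * ip (b0 δ q (s3R (T1 p) s3 s1) s1 (s3R p s2 s3)) B| := by
      rw [← e1]
      rw [abs_mul, abs_mul, abs_mul, habs, abs_neg]
      have : δ ^ 2 = |δ| * |δ| := by rw [← abs_mul, abs_of_nonneg (mul_self_nonneg _)]; ring
      rw [this]; ring
    rw [e4, e2]
    calc |gX q * (2 * (T1 p).y * ip B s1 - ip B s3) + gB q * ip B s1|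
        ≤ |gX q * (2 * (T1 p).y * ip B s1 - ip B s3)| + |gB q * ip B s1| := abs_add_le _ _
      _ = |gX q| * |2 * (T1 p).y * ip B s1 - ip B s3| + |gB q| * |ip B s1| := by
        rw [abs_mul, abs_mul]
      _ ≤ |gX q| * (2 * |(T1 p).y| * |ip B s1| + |ip B s3|) + |gB q| * |ip B s1| := by
        have : |2 * (T1 p).y * ip B s1 - ip B s3| ≤ 2 * |(T1 p).y| * |ip B s1| + |ip B s3| := by
          refine le_trans (abs_sub _ _) ?_
          rw [abs_mul, abs_mul, abs_two]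
        have := mul_le_mul_of_nonneg_left this (abs_nonneg (gX q))
        linarith
      _ ≤ _ := by
        have a1 := abs_nonneg (gX q)
        have a2 := abs_nonneg (gB q)
        have a3 := abs_nonneg (ip B s1)
        have a4 := abs_nonneg (ip B s3)
        have a5 := abs_nonneg (T1 p).y
        nlinarith [mul_nonneg a1 a3, mul_nonneg a1 a4, mul_nonneg a2 a4,
          mul_nonneg (mul_nonneg a1 a5) a4]

end Pool.Agent.W745.Fib
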