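import Pool.Agent.W745.Fib.LorA

/-!
Duality for the vector field `fV`, sequences of mirrors and data.
-/

set_option autoImplicit false

namespace Pool.Agent.W745.Fib

open Pool.Agent.W811.Stu

/-- the orbit as a sequence -/
noncomputable def qq (lam g : ℝ) (i : ℕ) : P3 := ⟨tr lam i g, tr lam (i + 1) g, tr lam (i + 2) g⟩

/-- the tangent vectors -/
noncomputable def ww (lam g : ℝ) (i : ℕ) : P3 := ⟨dE lam i g, dE lam (i + 1) g, dE lam (i + 2) g⟩

lemma qq_succ (lam g : ℝ) (i : ℕ) : qq lam g (i + 1) = T1 (qq lam g i) := by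
  unfold qq T1 stepS stepR
  rw [tr_rec]

lemma ww_succ (lam g : ℝ) (i : ℕ) : ww lam g (i + 1) = dT (qq lam g i) (ww lam g i) := by
  unfold qq ww dT dS dR
  rw [dE_rec]
  ext
  · rfl
  · rfl
  · simp only; ring

lemma qq_onS (lam g : ℝ) (i : ℕ) : OnS (lam / 2) (qq lam g i) := onS lam g i

lemma qq_zero (lam g : ℝ) : qq lam g 0 = lin lam g := by
  unfold qq lin; rw [tr_zero, tr_one, tr_two]

lemma dT_lc (p : P3) (N : ℝ) (u : P3) (M : ℝ) (v : P3) :
    dT p (lc N u M v) = lc N (dT p u) M (dT p v) := by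
  unfold dT dS dR lc; ext <;> simp only <;> ring

/-- tangent vectors of the surface -/
def Tan (p u : P3) : Prop := gA p * u.z + gB p * u.y + gX p * u.x = 0

lemma Tan.T {p u : P3} (h : Tan p u) : Tan (T1 p) (dT p u) := by
  unfold Tan T1 dT stepS stepR dS dR gA gB gX at *
  simp only at *
  linear_combination h

lemma tan_fV (p : P3) : Tan p (fV p) := by
  unfold Tan fV; simp only; ring

lemma tan_ww (lam g : ℝ) (i : ℕ) : Tan (qq lam g i) (ww lam g i) := by
  induction i with
  | zero =>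
    unfold Tan qq ww gA gB gX
    simp only [tr_zero, tr_one, tr_two, dE_zero, dE_one, dE_two, zero_add]
    ring
  | succ i ih => rw [qq_succ, ww_succ]; exact ih.T

/-- cross product relation -/
def Cr (p u v : P3) (μ : ℝ) : Prop :=
  u.z * v.y - u.y * v.z = μ * gX p ∧ u.x * v.z - u.z * v.x = μ * gB p ∧
    u.y * v.x - u.x * v.y = μ * gA p

lemma Cr.T {p u v : P3} {μ : ℝ} (h : Cr p u v μ) : Cr (T1 p) (dT p u) (dT p v) (-μ) := by
  obtain ⟨h1, h2, h3⟩ := h
  simp only [gA, gB, gX] at h1 h2 h3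
  refine ⟨?_, ?_, ?_⟩
  · simp only [T1, dT, stepS, stepR, dS, dR, gX]; linear_combination h3
  · simp only [T1, dT, stepS, stepR, dS, dR, gB]
    linear_combination (-2 * p.y) * h3 - h1
  · simp only [T1, dT, stepS, stepR, dS, dR, gA]
    linear_combination (-2 * p.x) * h3 - h2

lemma cr_fV {p v : P3} (h : Tan p v) : Cr p (fV p) v (-v.z) := by
  unfold Tan at h
  refine ⟨?_, ?_, ?_⟩
  · unfold fV; simp only; ring
  · unfold fV; simp only; ring
  · unfold fV; simp only; linear_combination h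

/-- iterated tangent map -/
def Di (q : ℕ → P3) : ℕ → ℕ → P3 → P3
  | _, 0, u => u
  | i, j + 1, u => Di q (i + 1) j (dT (q i) u)

lemma Di_lc (q : ℕ → P3) (i j : ℕ) (N : ℝ) (u : P3) (M : ℝ) (v : P3) :
    Di q i j (lc N u M v) = lc N (Di q i j u) M (Di q i j v) := by
  induction j generalizing i u v with
  | zero => rfl
  | succ j ih => rw [Di, dT_lc, ih]; rfl

lemma Di_ww (lam g : ℝ) (i j : ℕ) : Di (qq lam g) i j (ww lam g i) = ww lam g (i + j) := by
  induction j generalizing i with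
  | zero => rfl
  | succ j ih =>
    rw [Di, ← ww_succ, ih]
    congr 1; omega

end Pool.Agent.W745.Fib
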