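import Pool.Agent.W745.Fib.LorB

/-!
Dual vectors; sequences of mirrors, data and functionals.
-/

set_option autoImplicit false

namespace Pool.Agent.W745.Fib

open Pool.Agent.W811.Stu

/-- the dual vectors, for `m + 2` -/
noncomputable def vv (l t : ℝ) (m : ℕ) : P3 := ⟨dE l (m + 2) t, dE l (m + 1) t, dE l m t⟩

lemma vv_succ {lam g : ℝ} {n : ℕ} {l t : ℝ} (hd : ∀ j, j ≤ n → tr l j t = tr lam (n - j) g)
    {k m : ℕ} (hk : k + (m + 3) = n) : dT (qq lam g k) (vv l t (m + 1)) = vv l t m := by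
  have h1 := hd (m + 1) (by omega)
  have h2 := hd (m + 2) (by omega)
  have e1 : n - (m + 1) = k + 2 := by omega
  have e2 : n - (m + 2) = k + 1 := by omega
  rw [e1] at h1
  rw [e2] at h2
  have h3 := dE_rec l m t
  unfold qq vv dT dS dR
  ext
  · rfl
  · rfl
  · simp only
    rw [← h1, ← h2]
    rw [show m + 1 + 2 = m + 3 by ring, h3, show m + 1 + 1 = m + 2 by ring]
    ring

lemma tan_vv {lam g : ℝ} {n : ℕ} {l t : ℝ} (hd : ∀ j, j ≤ n → tr l j t = tr lam (n - j) g)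
    {k m : ℕ} (hk : k + (m + 2) = n) : Tan (qq lam g k) (vv l t m) := by
  have h0 := hd m (by omega)
  have h1 := hd (m + 1) (by omega)
  have h2 := hd (m + 2) (by omega)
  rw [show n - m = k + 2 by omega] at h0
  rw [show n - (m + 1) = k + 1 by omega] at h1
  rw [show n - (m + 2) = k by omega] at h2
  have h := tan_ww l t m
  unfold Tan qq ww gA gB gX at h
  simp only at h
  rw [h0, h1, h2] at h
  unfold Tan qq vv gA gB gX
  simp only
  linear_combination h

lemma di_cr {lam g : ℝ} {n : ℕ} (hn : tr lam n g = 1) {l t : ℝ}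
    (hd : ∀ j, j ≤ n → tr l j t = tr lam (n - j) g) (m : ℕ) :
    ∀ (k : ℕ) (u : P3) (μ : ℝ), k + (m + 2) = n → Cr (qq lam g k) u (vv l t m) μ →
      (Di (qq lam g) k m u).x = (-1) ^ m * l * μ := by
  induction m with
  | zero =>
    intro k u μ hk h
    have h1 := hd 1 (by omega)
    have h2 := hd 2 (by omega)
    rw [show n - 1 = k + 1 by omega, tr_one] at h1
    rw [show n - 2 = k by omega, tr_two] at h2
    have h3 := h.2.2
    unfold vv qq gA at h3
    simp only [zero_add] at h3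
    rw [dE_zero, dE_one, show k + 2 = n by omega, hn, ← h1, ← h2] at h3
    simp only [Di]
    linarith
  | succ m ih =>
    intro k u μ hk h
    have h1 := h.T
    rw [← qq_succ, vv_succ hd (by omega)] at h1
    have := ih (k + 1) _ _ (by omega) h1
    rw [Di, this]
    ring

/-- the functional on the field `fV` -/
lemma di_fV {lam g : ℝ} {n : ℕ} (hn : tr lam n g = 1) {l t : ℝ}
    (hd : ∀ j, j ≤ n → tr l j t = tr lam (n - j) g) {m k : ℕ} (hk : k + (m + 2) = n) :
    (Di (qq lam g) k m (fV (qq lam g k))).x = -((-1) ^ m * l * dE l (m + 2) t) := by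
  rw [di_cr hn hd m k _ _ hk (cr_fV (tan_vv hd hk))]
  simp only [vv]
  ring

/-- state: three mirrors and the data -/
structure St where
  s1 : L
  s2 : L
  s3 : L
  a : L
  b : L

noncomputable def nx (p : P3) (t : St) : St :=
  ⟨s3R p t.s2 t.s3, t.s3, t.s1, pr (s3R p t.s2 t.s3) t.b, t.a + pr t.s1 t.b⟩

noncomputable def sq (q : ℕ → P3) (t : St) : ℕ → St
  | 0 => t
  | i + 1 => nx (q i) (sq q t i)

/-- validity of the data -/
structure Ok (δ : ℝ) (p u : P3) (t : St) : Prop where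
  M : Mir p t.s1 t.s2 t.s3
  D : Dat δ p t.s1 t.s2 t.s3 t.a t.b u
  ca : Cn t.a
  cb : Cn t.b

lemma Ok.nx {δ : ℝ} {p u : P3} {t : St} (h : Ok δ p u t) : Ok δ (T1 p) (dT p u) (nx p t) :=
  ⟨Mir.T h.M, Dat.T h.M h.D, Cn_pr (Mir.T h.M).n1 h.cb, Cn_add h.ca (Cn_pr h.M.n1 h.cb)⟩

/-- the initial state -/
lemma exists_init {lam : ℝ} (hl : lam ≠ 0) (g : ℝ) : ∃ (t : St) (c : ℝ), c ≠ 0 ∧ |c| = |lam| ∧
    Ok (lam / 2) (qq lam g 0) (lc c (ww lam g 0) 0 (ww lam g 0)) t ∧
    ip t.b t.b = (lam / 2) ^ 2 := by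
  have hδ : lam / 2 ≠ 0 := by
    intro h; apply hl; linarith
  have hS := qq_onS lam g 0
  obtain ⟨s1, s2, s3, hM⟩ := exists_mir hδ hS
  have n0 : ip (b0 (lam / 2) (qq lam g 0) s1 s2 s3) (b0 (lam / 2) (qq lam g 0) s1 s2 s3) =
      (lam / 2) ^ 2 := by
    rw [b0_norm hδ hS hM]
    unfold qq
    rw [tr_zero]; ring
  have hn : 0 ≤ ip (b0 (lam / 2) (qq lam g 0) s1 s2 s3) (b0 (lam / 2) (qq lam g 0) s1 s2 s3) := by
    rw [n0]; positivity
  obtain ⟨η, hη, hηC⟩ : ∃ η : ℝ, (η = 1 ∨ η = -1) ∧ Cn (η • b0 (lam / 2) (qq lam g 0) s1 s2 s3) := by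
    rcases Cn_or hn with h | h
    · exact ⟨1, Or.inl rfl, by rwa [one_smul]⟩
    · exact ⟨-1, Or.inr rfl, by rwa [neg_one_smul]⟩
  have hη2 : η * η = 1 := by rcases hη with h | h <;> rw [h] <;> norm_num
  have hηa : |η| = 1 := by rcases hη with h | h <;> rw [h] <;> norm_num
  have hη0 : η ≠ 0 := by rcases hη with h | h <;> rw [h] <;> norm_num
  have hD := (b0_dat hδ hS hM).lc (b0_dat hδ hS hM) η 0
  refine ⟨⟨s1, s2, s3, 0, η • b0 (lam / 2) (qq lam g 0) s1 s2 s3⟩, η * lam,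
    mul_ne_zero hη0 hl, by rw [abs_mul, hηa, one_mul], ⟨hM, ?_, Cn_zero, hηC⟩, ?_⟩
  · have e : lc (η * lam) (ww lam g 0) 0 (ww lam g 0) =
        lc η (lc (-1) (fV (qq lam g 0)) 0 (fV (qq lam g 0))) 0
          (lc (-1) (fV (qq lam g 0)) 0 (fV (qq lam g 0))) := by
      unfold lc fV ww qq gX gB
      simp only [tr_zero, tr_one, tr_two, dE_zero, dE_one, dE_two, zero_add]
      ext <;> simp only <;> ring
    rw [e]
    have e2 : η • (0 : L) + (0:ℝ) • (0 : L) = 0 := by simp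
    have e3 : η • b0 (lam / 2) (qq lam g 0) s1 s2 s3 +
        (0:ℝ) • b0 (lam / 2) (qq lam g 0) s1 s2 s3 = η • b0 (lam / 2) (qq lam g 0) s1 s2 s3 := by
      rw [zero_smul, add_zero]
    rw [e2, e3] at hD
    exact hD
  · simp only
    rw [ip_smul_left, ip_smul_right, n0]
    linear_combination (lam / 2) ^ 2 * hη2

lemma Ok.sq {lam g c : ℝ} {t : St}
    (h : Ok (lam / 2) (qq lam g 0) (lc c (ww lam g 0) 0 (ww lam g 0)) t) (i : ℕ) :
    Ok (lam / 2) (qq lam g i) (lc c (ww lam g i) 0 (ww lam g i)) (sq (qq lam g) t i) := by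
  induction i with
  | zero => exact h
  | succ i ih =>
    have := ih.nx
    rw [← qq_succ, dT_lc, ← ww_succ] at this
    exact this

/-- growth of the data -/
lemma grow1 {lam g c : ℝ} {t : St}
    (h : Ok (lam / 2) (qq lam g 0) (lc c (ww lam g 0) 0 (ww lam g 0)) t)
    (h0 : ip t.b t.b = (lam / 2) ^ 2) (i : ℕ) :
    (|lam / 2| * (max i 1 : ℕ)) ^ 2 ≤ ip (sq (qq lam g) t i).b (sq (qq lam g) t i).b ∧
    (|lam / 2| * (max i 1 : ℕ)) ^ 2 ≤ ip (sq (qq lam g) t (i + 1)).a (sq (qq lam g) t (i + 1)).a := by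
  have key : ∀ i, (|lam / 2| * (max i 1 : ℕ)) ^ 2 ≤ ip (sq (qq lam g) t i).b (sq (qq lam g) t i).b →
      (|lam / 2| * (max i 1 : ℕ)) ^ 2 ≤
        ip (sq (qq lam g) t (i + 1)).a (sq (qq lam g) t (i + 1)).a := by
    intro i hi
    have hO := h.sq i
    exact le_trans hi (norm_le_pr (Mir.T hO.M).n1)
  have hb : ∀ i, (|lam / 2| * (max i 1 : ℕ)) ^ 2 ≤
      ip (sq (qq lam g) t i).b (sq (qq lam g) t i).b := by
    intro i
    induction i using Nat.strong_induction_on with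
    | _ i ih =>
      rcases i with _ | _ | i
      · simp only [sq]
        rw [h0]
        simp
      · have hi := ih 0 (by omega)
        have hO := h.sq 0
        have := mono1 hO.M.n1 hO.ca hO.cb hi
        exact this
      · have h1 := ih (i + 1) (by omega)
        have h2 := key i (ih i (by omega))
        have hO := h.sq (i + 1)
        have h3 := norm_add hO.ca (Cn_pr hO.M.n1 hO.cb) h2 (le_trans h1 (norm_le_pr hO.M.n1))
        refine le_trans ?_ h3
        rw [← mul_add]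
        have e : ((max (i + 1 + 1) 1 : ℕ) : ℝ) ≤ ((max i 1 : ℕ) : ℝ) + ((max (i + 1) 1 : ℕ) : ℝ) := by
          have : max (i + 1 + 1) 1 ≤ max i 1 + max (i + 1) 1 := by omega
          exact_mod_cast this
        apply pow_le_pow_left₀ (by positivity)
        exact mul_le_mul_of_nonneg_left e (abs_nonneg _)
  exact ⟨hb i, key i (hb i)⟩

/-- functionals along the sequence -/
lemma exists_fn {lam g c : ℝ} (hl : lam ≠ 0) {t : St}
    (h : Ok (lam / 2) (qq lam g 0) (lc c (ww lam g 0) 0 (ww lam g 0)) t) {f : ℕ}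
    (hf : tr lam (f + 2) g = 1) : ∃ s : ℝ, s * s = 1 ∧ ∀ j i, i + j = f → ∃ A B : L,
      Fn (lam / 2) s (qq lam g i) (sq (qq lam g) t i).s1 (sq (qq lam g) t i).s2
        (sq (qq lam g) t i).s3 A B (fun u => (Di (qq lam g) i j u).x) := by
  have hδ : lam / 2 ≠ 0 := by
    intro h; apply hl; linarith
  have hO := h.sq f
  obtain ⟨s, hs, hF⟩ := Fn.base hδ (qq_onS lam g f) hO.M (by unfold qq; exact hf)
  refine ⟨s, hs, fun j => ?_⟩
  induction j with
  | zero =>
    intro i hi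
    obtain rfl : i = f := by omega
    exact ⟨_, _, hF⟩
  | succ j ih =>
    intro i hi
    obtain ⟨A, B, hAB⟩ := ih (i + 1) (by omega)
    rw [qq_succ] at hAB
    have hO := h.sq i
    exact ⟨_, _, Fn.step hO.M hAB⟩

end Pool.Agent.W745.Fib
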