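import Pool.Agent.W745.Fib.LorC

/-!
Sign rule and growth.
-/

set_option autoImplicit false

namespace Pool.Agent.W745.Fib

open Pool.Agent.W811.Stu

/-- functionals along the sequence, with timelike second vector -/
lemma exists_fn2 {lam g c : ℝ} (hl : lam ≠ 0) {t : St}
    (h : Ok (lam / 2) (qq lam g 0) (lc c (ww lam g 0) 0 (ww lam g 0)) t) {f : ℕ}
    (hf : tr lam (f + 2) g = 1) : ∃ s : ℝ, s * s = 1 ∧ ∀ j i, i + (j + 1) = f → ∃ A B : L,
      Fn (lam / 2) s (qq lam g i) (sq (qq lam g) t i).s1 (sq (qq lam g) t i).s2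
        (sq (qq lam g) t i).s3 A B (fun u => (Di (qq lam g) i (j + 1) u).x) ∧
      (2 * (lam / 2) ^ 2) ^ 2 ≤ ip B B := by
  have hδ : lam / 2 ≠ 0 := by
    intro h; apply hl; linarith
  have hO := h.sq f
  obtain ⟨s, hs, hF⟩ := Fn.base hδ (qq_onS lam g f) hO.M (by unfold qq; exact hf)
  refine ⟨s, hs, fun j => ?_⟩
  induction j with
  | zero =>
    intro i hi
    obtain rfl : f = i + 1 := by omega
    have hOi := h.sq i
    rw [qq_succ] at hF
    have h1 := Fn.step hOi.M hF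
    refine ⟨_, _, h1, ?_⟩
    rw [norm_pr hOi.M.n3]
    have h2 := (Cn_add hF.cA hF.cB).2
    have e := wv_2 (qq_onS lam g (i + 1)) (h.sq (i + 1)).M
    rw [qq_succ] at e
    have e2 : ip (s • wv (T1 (qq lam g i)) (sq (qq lam g) t (i + 1)).s1
        (sq (qq lam g) t (i + 1)).s2 (sq (qq lam g) t (i + 1)).s3 +
        s • wv (T1 (qq lam g i)) (sq (qq lam g) t (i + 1)).s1
        (sq (qq lam g) t (i + 1)).s2 (sq (qq lam g) t (i + 1)).s3) (sq (qq lam g) t i).s3 =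
        s * (2 * (lam / 2) ^ 2) := by
      rw [ip_add_left, ip_smul_left]
      have : ip (wv (T1 (qq lam g i)) (sq (qq lam g) t (i + 1)).s1
        (sq (qq lam g) t (i + 1)).s2 (sq (qq lam g) t (i + 1)).s3) (sq (qq lam g) t i).s3 =
        (lam / 2) ^ 2 := e
      rw [this]; ring
    rw [e2]
    have e3 : (s * (2 * (lam / 2) ^ 2)) ^ 2 = (2 * (lam / 2) ^ 2) ^ 2 := by
      rw [mul_pow, pow_two s, hs, one_mul]
    rw [e3]
    linarith
  | succ j ih =>
    intro i hi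
    obtain ⟨A, B, hAB, hB⟩ := ih (i + 1) (by omega)
    rw [qq_succ] at hAB
    have hOi := h.sq i
    refine ⟨_, _, Fn.step hOi.M hAB, ?_⟩
    refine le_trans ?_ (norm_le_pr hOi.M.n3)
    have h1 := ip_nonneg hAB.cA hAB.cB
    rw [ip_add_left, ip_add_right, ip_add_right, ip_comm B A]
    linarith [hAB.cA.2]

lemma Di_smul (lam g c : ℝ) (i j : ℕ) :
    Di (qq lam g) i j (lc c (ww lam g i) 0 (ww lam g i)) = lc c (ww lam g (i + j)) 0
      (ww lam g (i + j)) := by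
  rw [Di_lc, Di_ww]

/-- the vector representing the differential of `z` -/
noncomputable def wz (p : P3) (s1 s2 s3 : L) : L := wv ⟨p.x, p.y, p.z⟩ s1 s3 s2

lemma mir_wz {p : P3} {s1 s2 s3 : L} (h : Mir p s1 s2 s3) : Mir ⟨p.x, p.y, p.z⟩ s1 s3 s2 :=
  ⟨h.n1, h.n3, h.n2, h.hx, by rw [ip_comm]; exact h.hy, h.hz⟩

lemma onS_wz {δ : ℝ} {p : P3} (h : OnS δ p) : OnS δ ⟨p.x, p.y, p.z⟩ := by
  unfold OnS at *; simp only; linear_combination h

lemma wz_uz {δ : ℝ} {p : P3} {s1 s2 s3 a b : L} {u : P3} (hD : Dat δ p s1 s2 s3 a b u) :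
    δ * u.z = -ip a (wz p s1 s2 s3) := by
  rw [hD.uz]
  simp only [wz, wv, ip_sub_right, ip_smul_right, hD.a1]
  unfold gA gB
  ring

lemma wz_b0 {δ : ℝ} {p : P3} {s1 s2 s3 : L} (hδ : δ ≠ 0) (hS : OnS δ p) (hM : Mir p s1 s2 s3) :
    ip (b0 δ p s1 s2 s3) (wz p s1 s2 s3) = -(δ * (1 + δ ^ 2 - p.z ^ 2)) := by
  have h1 := wv_1 (mir_wz hM)
  have h3 := wv_3 (mir_wz hM)
  have h2 := wv_2 (onS_wz hS) (mir_wz hM)
  rw [ip_comm] at h1 h2 h3
  unfold wz
  rw [b0, ip_smul_left, ip_sub_left, ip_add_left, ip_smul_left, ip_smul_left, ip_smul_left, h1, h2,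
    h3]
  field_simp
  ring

theorem ssg (hDu : SDu) : SSg := by
  intro lam hl k m hk hm g hg hz
  have hδ : lam / 2 ≠ 0 := by
    intro h; apply hl; linarith
  obtain ⟨hdl, hd, -⟩ := hDu lam g (k + m) (by omega) hg
  set l' := dl lam (k + m) g with hl'
  set t' := dt lam (k + m) g with ht'
  obtain ⟨m, rfl⟩ : ∃ j, m = j + 3 := ⟨m - 3, by omega⟩
  obtain ⟨t, c, hc, hcl, hO, h0⟩ := exists_init hl g
  have hf : tr lam (k + m + 1 + 2) g = 1 := by
    rw [show k + m + 1 + 2 = k + (m + 3) by ring]; exact hg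
  obtain ⟨s, hs, H⟩ := exists_fn2 hl hO hf
  obtain ⟨A, B, hF, hB⟩ := H m k (by ring)
  have hOk := hO.sq k
  set q := qq lam g k with hq
  set T := sq (qq lam g) t k with hT
  have hSq : OnS (lam / 2) q := qq_onS lam g k
  have hqz : q.z = tr lam k g := rfl
  have hz2 : q.z ^ 2 ≤ 1 := by
    rw [hqz]; exact (sq_le_one_iff_abs_le_one _).2 hz
  -- timelike vectors
  have hδ2 : 0 < (lam / 2) ^ 2 := by positivity
  have tb : 0 < ip T.b T.b := by
    have := (grow1 hO h0 k).1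
    refine lt_of_lt_of_le ?_ this
    have h1 : 0 < |lam / 2| := abs_pos.2 hδ
    have h2 : (0:ℝ) < (max k 1 : ℕ) := by
      have : 0 < max k 1 := by omega
      exact_mod_cast this
    positivity
  have ta : 0 < ip T.a T.a := by
    have := (grow1 hO h0 (k - 1)).2
    rw [show k - 1 + 1 = k by omega] at this
    refine lt_of_lt_of_le ?_ this
    have h1 : 0 < |lam / 2| := abs_pos.2 hδ
    have h2 : (0:ℝ) < (max (k - 1) 1 : ℕ) := by
      have : 0 < max (k - 1) 1 := by omega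
      exact_mod_cast this
    positivity
  have tB : 0 < ip B B := lt_of_lt_of_le (by positivity) hB
  have hB0 : B ≠ 0 := by
    intro h; rw [h] at tB; simp at tB
  -- (3)
  have e3 := hF.eq _ _ _ hOk.D
  rw [Di_smul] at e3
  have f3 : 0 < lam / 2 * s * (c * dE lam (k + (m + 3)) g) := by
    have : (lc c (ww lam g (k + (m + 1))) 0 (ww lam g (k + (m + 1)))).x =
        c * dE lam (k + (m + 3)) g := by
      simp only [lc, ww]
      rw [show k + (m + 1) + 2 = k + (m + 3) by ring]; ring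
    rw [this] at e3
    rw [e3]
    have h1 := ip_nonneg hOk.ca hF.cA
    have h2 := ip_pos hOk.cb tb hF.cB hB0
    linarith
  -- orientation of wz
  have nw : ip (wz q T.s1 T.s2 T.s3) (wz q T.s1 T.s2 T.s3) = (1 - q.z ^ 2) * (lam / 2) ^ 2 :=
    wv_norm (onS_wz hSq) (mir_wz hOk.M)
  have nw0 : 0 ≤ ip (wz q T.s1 T.s2 T.s3) (wz q T.s1 T.s2 T.s3) := by
    rw [nw]; exact mul_nonneg (by linarith) hδ2.le
  have hw3 : ip (wz q T.s1 T.s2 T.s3) T.s3 = (lam / 2) ^ 2 := wv_2 (onS_wz hSq) (mir_wz hOk.M)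
  have hw0 : wz q T.s1 T.s2 T.s3 ≠ 0 := by
    intro h; rw [h] at hw3; simp only [ip_zero_left] at hw3; linarith
  obtain ⟨σ, hσ, hσC⟩ : ∃ σ : ℝ, σ * σ = 1 ∧ Cn (σ • wz q T.s1 T.s2 T.s3) := by
    rcases Cn_or nw0 with h | h
    · exact ⟨1, by norm_num, by rwa [one_smul]⟩
    · exact ⟨-1, by norm_num, by rwa [neg_one_smul]⟩
  have hσ0 : σ ≠ 0 := by intro h; rw [h] at hσ; norm_num at hσ
  -- (1)
  have e1 := wz_uz hOk.D
  have f1 : 0 < σ * (-(lam / 2 * (c * dE lam k g))) := by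
    have : (lc c (ww lam g k) 0 (ww lam g k)).z = c * dE lam k g := by
      simp only [lc, ww]; ring
    rw [this] at e1
    rw [e1, neg_neg, ← ip_smul_right]
    exact ip_pos hOk.ca ta hσC (smul_ne_zero hσ0 hw0)
  -- orientation of b0
  set β := b0 (lam / 2) q T.s1 T.s2 T.s3 with hβ
  have nβ : ip β β = 1 + (lam / 2) ^ 2 - q.z ^ 2 := b0_norm hδ hSq hOk.M
  have nβ0 : 0 < ip β β := by rw [nβ]; linarith
  have wβ : ip β (wz q T.s1 T.s2 T.s3) = -(lam / 2 * (1 + (lam / 2) ^ 2 - q.z ^ 2)) :=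
    wz_b0 hδ hSq hOk.M
  have hvv : ip ((-(σ * (lam / 2))) • β) ((-(σ * (lam / 2))) • β) = (lam / 2) ^ 2 * ip β β := by
    rw [ip_smul_left, ip_smul_right]
    linear_combination (lam / 2) ^ 2 * ip β β * hσ
  have hvpos : 0 < ip ((-(σ * (lam / 2))) • β) ((-(σ * (lam / 2))) • β) := by
    rw [hvv]; exact mul_pos hδ2 nβ0
  have hvC : Cn ((-(σ * (lam / 2))) • β) := by
    rcases Cn_or hvpos.le with h | h
    · exact h
    · exfalso
      have h1 := ip_nonneg h hσC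
      rw [ip_neg_left, ip_smul_left, ip_smul_right, wβ] at h1
      have h2 : -(-(σ * (lam / 2)) * (σ * -(lam / 2 * (1 + (lam / 2) ^ 2 - q.z ^ 2)))) =
          -((lam / 2) ^ 2 * (1 + (lam / 2) ^ 2 - q.z ^ 2)) := by
        linear_combination (-(lam / 2) ^ 2 * (1 + (lam / 2) ^ 2 - q.z ^ 2)) * hσ
      rw [h2] at h1
      have : 0 < (lam / 2) ^ 2 * (1 + (lam / 2) ^ 2 - q.z ^ 2) := by rw [← nβ]; exact mul_pos hδ2 nβ0
      linarith
  -- (2)
  have e2 := hF.eq _ _ _ (b0_dat hδ hSq hOk.M)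
  rw [Di_lc, ip_zero_left, zero_add] at e2
  have e2' := di_fV (lam := lam) (g := g) (n := k + (m + 3)) hg hd (m := m + 1) (k := k) (by ring)
  have f2 : 0 < -(σ * s * ((-1) ^ (m + 3) * l' * dE l' (m + 3) t')) := by
    have h1 : (lc (-1) (Di (qq lam g) k (m + 1) (fV q)) 0 (Di (qq lam g) k (m + 1) (fV q))).x =
        (-1) ^ (m + 1) * l' * dE l' (m + 1 + 2) t' := by
      simp only [lc]
      rw [e2']
      ring
    rw [h1] at e2
    have h2 := ip_pos hvC hvpos hF.cB hB0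
    rw [ip_smul_left, ← e2] at h2
    have h3 : -(σ * (lam / 2)) * (lam / 2 * s * ((-1) ^ (m + 1) * l' * dE l' (m + 1 + 2) t')) =
        (lam / 2) ^ 2 * -(σ * s * ((-1) ^ (m + 3) * l' * dE l' (m + 3) t')) := by
      rw [show m + 1 + 2 = m + 3 by ring]
      ring
    rw [h3] at h2
    exact (pos_iff_pos_of_mul_pos h2).1 hδ2
  -- conclusion
  have P := mul_pos (mul_pos f1 f2) f3
  have e : σ * (-(lam / 2 * (c * dE lam k g))) *
      -(σ * s * ((-1) ^ (m + 3) * l' * dE l' (m + 3) t')) *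
      (lam / 2 * s * (c * dE lam (k + (m + 3)) g)) =
      ((lam / 2) ^ 2 * c ^ 2) * ((-1) ^ (m + 3) * l' * dE lam (k + (m + 3)) g * dE lam k g *
        dE l' (m + 3) t') := by
    have : σ * (-(lam / 2 * (c * dE lam k g))) *
      -(σ * s * ((-1) ^ (m + 3) * l' * dE l' (m + 3) t')) *
      (lam / 2 * s * (c * dE lam (k + (m + 3)) g)) =
      (σ * σ) * (s * s) * (((lam / 2) ^ 2 * c ^ 2) * ((-1) ^ (m + 3) * l' *
        dE lam (k + (m + 3)) g * dE lam k g * dE l' (m + 3) t')) := by ring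
    rw [this, hσ, hs]; ring
  rw [e] at P
  exact (pos_iff_pos_of_mul_pos P).1 (by positivity)

/-- growth at the band edges -/
lemma gr_edge {lam : ℝ} (hl : lam ≠ 0) {n : ℕ} (hn : 3 ≤ n) {g : ℝ} (hg : tr lam n g = 1) :
    |lam| / 8 * n ≤ |dE lam n g| := by
  have hδ : lam / 2 ≠ 0 := by
    intro h; apply hl; linarith
  obtain ⟨n, rfl⟩ : ∃ j, n = j + 3 := ⟨n - 3, by omega⟩
  obtain ⟨t, c, hc, hcl, hO, h0⟩ := exists_init hl g
  obtain ⟨s, hs, H⟩ := exists_fn2 (f := n + 1) hl hO hg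
  obtain ⟨A, B, hF, hB⟩ := H 0 n (by ring)
  have hOk := hO.sq n
  have e3 := hF.eq _ _ _ hOk.D
  rw [Di_smul] at e3
  have e4 : (lc c (ww lam g (n + (0 + 1))) 0 (ww lam g (n + (0 + 1)))).x =
      c * dE lam (n + 3) g := by
    simp only [lc, ww]
    rw [show n + (0 + 1) + 2 = n + 3 by ring]; ring
  rw [e4] at e3
  have h1 := ip_nonneg hOk.ca hF.cA
  have h2 := rev_cs hOk.cb.2 hF.cB.2
  have h3 := ip_nonneg hOk.cb hF.cB
  have h4 := (grow1 hO h0 n).1
  have h5 : (|lam / 2| * (max n 1 : ℕ)) * (2 * (lam / 2) ^ 2) ≤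
      ip (sq (qq lam g) t n).b B := by
    have : ((|lam / 2| * (max n 1 : ℕ)) * (2 * (lam / 2) ^ 2)) ^ 2 ≤
        ip (sq (qq lam g) t n).b B ^ 2 := by
      rw [mul_pow]
      exact le_trans (mul_le_mul h4 hB (by positivity) hOk.cb.2) h2
    exact le_trans (le_abs_self _) (abs_le_of_sq_le_sq this h3)
  have habs : |s| = 1 := by
    have : |s| * |s| = 1 := by rw [← abs_mul, hs, abs_one]
    nlinarith [abs_nonneg s]
  have h6 : |lam / 2| * (|lam| * |dE lam (n + 3) g|) = |lam / 2 * s * (c * dE lam (n + 3) g)| := by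
    rw [abs_mul, abs_mul, abs_mul, habs, hcl]; ring
  have h7 : |lam / 2| * (2 * (lam / 2) ^ 2 * (max n 1 : ℕ)) ≤
      |lam / 2| * (|lam| * |dE lam (n + 3) g|) := by
    rw [h6, e3]
    refine le_trans ?_ (le_abs_self _)
    linarith
  have h8 := le_of_mul_le_mul_left h7 (abs_pos.2 hδ)
  have h9 : (2 * (lam / 2) ^ 2 * (max n 1 : ℕ)) = |lam| * (|lam| / 2 * (max n 1 : ℕ)) := by
    have : lam ^ 2 = |lam| ^ 2 := (sq_abs lam).symm
    rw [div_pow, this]; ring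
  rw [h9] at h8
  have h10 := le_of_mul_le_mul_left h8 (abs_pos.2 hl)
  refine le_trans ?_ h10
  have h11 : ((n + 3 : ℕ) : ℝ) ≤ 4 * ((max n 1 : ℕ) : ℝ) := by
    have : n + 3 ≤ 4 * max n 1 := by omega
    exact_mod_cast this
  have := mul_le_mul_of_nonneg_left h11 (abs_nonneg lam)
  linarith

theorem gr (hDi : SDi) : SGr := by
  intro lam hl
  have hδ : lam / 2 ≠ 0 := by
    intro h; apply hl; linarith
  obtain ⟨C, hC, H⟩ := hDi lam hl 1 one_pos (one_lt_cc hδ)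
  refine ⟨|lam| / 8 / C, by have := abs_pos.2 hl; positivity, fun n hn E hE => ?_⟩
  obtain ⟨H1, H2⟩ := H n (by omega)
  obtain ⟨u, v, hu, hv, huv, hb, he⟩ := H2 E hE
  obtain ⟨g, hg, hgI⟩ : ∃ g, tr lam n g = 1 ∧ ∀ e ∈ Set.uIcc g E, e ∈ Set.Icc u v := by
    rcases he with ⟨-, h⟩ | ⟨h, -⟩
    · refine ⟨v, h, fun e he => ?_⟩
      rw [Set.uIcc_of_ge hv] at he
      exact ⟨le_trans hu he.1, he.2⟩
    · refine ⟨u, h, fun e he => ?_⟩
      rw [Set.uIcc_of_le hu] at he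
      exact ⟨he.1, le_trans he.2 hv⟩
  have h1 := (H1 g E (fun e he => hb e (hgI e he))).1
  have h2 := gr_edge hl hn hg
  have hC0 : 0 < C := by linarith
  have : |lam| / 8 / C * n = |lam| / 8 * n / C := by ring
  rw [this, div_le_iff₀ hC0]
  linarith

end Pool.Agent.W745.Fib
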