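import Pool.Agent.W745.Fib.LorD

/-!
Product inequality.
-/

set_option autoImplicit false

namespace Pool.Agent.W745.Fib

open Pool.Agent.W811.Stu

/-- lower bound of the derivative by forward and backward norms -/
lemma k1_core {lam C : ℝ} (hl : lam ≠ 0) (hC : 1 ≤ C) (hDu : SDu) {k m r : ℕ} (hr : 1 ≤ r)
    (hrk : r + 3 ≤ k) (hrk' : k ≤ r + 4) {g : ℝ} (hg : tr lam (k + (m + 3)) g = 1)
    (hb : ∀ j, j ≤ k + (m + 3) + 1 → |tr lam j g| ≤ C) :
    (lam / 2) ^ 2 * |lam| * |dE lam r g| *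
        |dE (dl lam (k + (m + 3)) g) (m + 3) (dt lam (k + (m + 3)) g)| ≤
      (1 + C + 2 * C ^ 2) * ((C + C ^ 2) * (2 * C + 2)) * |dE lam (k + (m + 3)) g| := by
  have hδ : lam / 2 ≠ 0 := by
    intro h; apply hl; linarith
  obtain ⟨hdl, hd, -⟩ := hDu lam g (k + (m + 3)) (by omega) hg
  set l' := dl lam (k + (m + 3)) g with hl'
  set t' := dt lam (k + (m + 3)) g with ht'
  obtain ⟨t, c, hc, hcl, hO, h0⟩ := exists_init hl g
  obtain ⟨i, rfl⟩ : ∃ i, k = i + 2 := ⟨k - 2, by omega⟩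
  obtain ⟨s, hs, H⟩ := exists_fn2 (f := i + 2 + m + 1) hl hO
    (by rw [show i + 2 + m + 1 + 2 = i + 2 + (m + 3) by ring]; exact hg)
  obtain ⟨A, B, hF, -⟩ := H m (i + 2) (by ring)
  have hOi := hO.sq i
  have hOi1 := hO.sq (i + 1)
  -- functional at time `i`
  have hF' : Fn (lam / 2) s (T1 (T1 (qq lam g i)))
      (s3R (T1 (qq lam g i)) (sq (qq lam g) t i).s3 (sq (qq lam g) t i).s1)
      (sq (qq lam g) t i).s1 (s3R (qq lam g i) (sq (qq lam g) t i).s2 (sq (qq lam g) t i).s3) A B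
      (fun u => (Di (qq lam g) (i + 2) (m + 1) u).x) := by
    have := hF
    rw [show i + 2 = i + 1 + 1 by ring, qq_succ, qq_succ] at this
    simp only [sq, nx] at this
    rw [qq_succ] at this
    exact this
  have hF1 := Fn.step (Mir.T hOi.M) hF'
  have hF0 := Fn.step hOi.M hF1
  obtain ⟨νb, hνb, hνb2, hνb3⟩ := bwd2 (l := fun u => (Di (qq lam g) (i + 2) (m + 1) u).x) hδ hs
    (qq_onS lam g i) hOi.M (by
      intro u
      rw [Di_lc]
      simp only [lc]; ring) hF'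
  -- forward estimate
  obtain ⟨r, rfl⟩ : ∃ j, r = j + 1 := ⟨r - 1, by omega⟩
  have hOr := hO.sq r
  obtain ⟨νf, hνf, hνf2, hνf3⟩ := fwd2 hOr.M hOr.D hOr.ca hOr.cb
  have hνf4 : νf ^ 2 ≤ ip (sq (qq lam g) t i).b (sq (qq lam g) t i).b := by
    have h2 : νf ^ 2 ≤ ip (sq (qq lam g) t (r + 2)).b (sq (qq lam g) t (r + 2)).b := hνf2
    rcases (by omega : i = r + 2 ∨ i = r + 3) with h | h
    · rw [h]; exact h2
    · rw [h]
      have hO2 := hO.sq (r + 2)
      exact mono1 hO2.M.n1 hO2.ca hO2.cb h2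
  -- the product
  have e3 := hF0.eq _ _ _ hOi.D
  have h1 := ip_nonneg hOi.ca hF0.cA
  have h2 := rev_cs hOi.cb.2 hF0.cB.2
  have h3 := ip_nonneg hOi.cb hF0.cB
  have h5 : νf * νb ≤ ip (sq (qq lam g) t i).b (pr (sq (qq lam g) t i).s3
      (B + pr (sq (qq lam g) t i).s1 (A + B))) := by
    have : (νf * νb) ^ 2 ≤ ip (sq (qq lam g) t i).b (pr (sq (qq lam g) t i).s3
      (B + pr (sq (qq lam g) t i).s1 (A + B))) ^ 2 := by
      rw [mul_pow]
      exact le_trans (mul_le_mul hνf4 hνb2 (by positivity) hOi.cb.2) h2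
    exact le_trans (le_abs_self _) (abs_le_of_sq_le_sq this h3)
  have habs : |s| = 1 := by
    have : |s| * |s| = 1 := by rw [← abs_mul, hs, abs_one]
    nlinarith [abs_nonneg s]
  have e4 : (Di (qq lam g) (i + 2) (m + 1) (dT (T1 (qq lam g i)) (dT (qq lam g i)
      (lc c (ww lam g i) 0 (ww lam g i))))).x = c * dE lam (i + 2 + (m + 3)) g := by
    rw [dT_lc, ← ww_succ, ← qq_succ, dT_lc, ← ww_succ, Di_smul]
    simp only [lc, ww]
    rw [show i + 1 + 1 + (m + 1) + 2 = i + 2 + (m + 3) by ring]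
    ring
  rw [e4] at e3
  have h6 : |lam / 2| * |lam| * |dE lam (i + 2 + (m + 3)) g| =
      |lam / 2 * s * (c * dE lam (i + 2 + (m + 3)) g)| := by
    rw [abs_mul, abs_mul, abs_mul, habs, hcl]; ring
  have h7 : νf * νb ≤ |lam / 2| * |lam| * |dE lam (i + 2 + (m + 3)) g| := by
    rw [h6, e3]
    refine le_trans ?_ (le_abs_self _)
    linarith
  -- bounds of the coefficients
  have bz : ∀ j, j ≤ i + 2 + (m + 3) + 1 → |tr lam j g| ≤ C := hb
  have hab : ∀ a b c : ℝ, |a| ≤ C → |b| ≤ C → |c| ≤ C → |a - b * c| ≤ C + C ^ 2 := by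
    intro a b c ha hb hc
    calc |a - b * c| ≤ |a| + |b * c| := abs_sub _ _
      _ ≤ C + C * C := by
        rw [abs_mul]
        exact add_le_add ha (mul_le_mul hb hc (abs_nonneg _) (by linarith))
      _ = C + C ^ 2 := by ring
  have c1 : |1 - (qq lam g r).y ^ 2| + |gA (qq lam g r)| ≤ 1 + C + 2 * C ^ 2 := by
    have a1 : |1 - (qq lam g r).y ^ 2| ≤ 1 + C ^ 2 := by
      refine le_trans (abs_sub _ _) ?_
      rw [abs_one, abs_pow]
      have : |(qq lam g r).y| ≤ C := bz (r + 1) (by omega)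
      have := pow_le_pow_left₀ (abs_nonneg _) this 2
      linarith
    have a2 : |gA (qq lam g r)| ≤ C + C ^ 2 :=
      hab _ _ _ (bz r (by omega)) (bz (r + 2) (by omega)) (bz (r + 1) (by omega))
    linarith
  have c2 : |gX (T1 (T1 (qq lam g i)))| * (2 * |(T1 (qq lam g i)).y| + 1) +
      |gB (T1 (T1 (qq lam g i)))| ≤ (C + C ^ 2) * (2 * C + 2) := by
    rw [← qq_succ, ← qq_succ]
    have a1 : |gX (qq lam g (i + 1 + 1))| ≤ C + C ^ 2 :=
      hab _ _ _ (bz (i + 1 + 1 + 2) (by omega)) (bz (i + 1 + 1 + 1) (by omega))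
        (bz (i + 1 + 1) (by omega))
    have a2 : |gB (qq lam g (i + 1 + 1))| ≤ C + C ^ 2 :=
      hab _ _ _ (bz (i + 1 + 1 + 1) (by omega)) (bz (i + 1 + 1 + 2) (by omega))
        (bz (i + 1 + 1) (by omega))
    have a3 : |(qq lam g (i + 1)).y| ≤ C := bz (i + 1 + 1) (by omega)
    have a4 := mul_le_mul a1 (by linarith : 2 * |(qq lam g (i + 1)).y| + 1 ≤ 2 * C + 1)
      (by positivity) (by positivity)
    nlinarith
  have d1 : |lam / 2| * (|lam| * |dE lam (r + 1) g|) ≤ (1 + C + 2 * C ^ 2) * νf := by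
    have : (lc c (ww lam g r) 0 (ww lam g r)).y = c * dE lam (r + 1) g := by
      simp only [lc, ww]; ring
    rw [this, abs_mul, hcl] at hνf3
    exact le_trans hνf3 (mul_le_mul_of_nonneg_right c1 hνf)
  have d2 : (lam / 2) ^ 2 * (|lam| * |dE l' (m + 3) t'|) ≤ ((C + C ^ 2) * (2 * C + 2)) * νb := by
    have e := di_fV (lam := lam) (g := g) (n := i + 2 + (m + 3)) hg hd (m := m + 1) (k := i + 2)
      (by ring)
    rw [← qq_succ, ← qq_succ] at hνb3
    have e' : (Di (qq lam g) (i + 2) (m + 1) (fV (qq lam g (i + 1 + 1)))).x =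
        -((-1) ^ (m + 1) * l' * dE l' (m + 1 + 2) t') := e
    rw [e', abs_neg, abs_mul, abs_mul, abs_pow, abs_neg, abs_one, one_pow, one_mul] at hνb3
    have hl1 : |l'| = |lam| := by
      rcases hdl with h | h <;> rw [h]
      rw [abs_neg]
    rw [hl1] at hνb3
    rw [← qq_succ, ← qq_succ] at c2
    exact le_trans hνb3 (mul_le_mul_of_nonneg_right c2 hνb)
  -- conclusion
  have hCp : 0 ≤ (1 + C + 2 * C ^ 2) := by positivity
  have hCq : 0 ≤ ((C + C ^ 2) * (2 * C + 2)) := by positivity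
  have m1 := mul_le_mul d1 d2 (by positivity) (mul_nonneg hCp hνf)
  have m2 := mul_le_mul_of_nonneg_left h7 (mul_nonneg hCp hCq)
  have hpos : 0 < |lam / 2| * |lam| := mul_pos (abs_pos.2 hδ) (abs_pos.2 hl)
  have m3 : (|lam / 2| * |lam|) * ((lam / 2) ^ 2 * |lam| * |dE lam (r + 1) g| *
      |dE l' (m + 3) t'|) ≤ (|lam / 2| * |lam|) * ((1 + C + 2 * C ^ 2) *
      ((C + C ^ 2) * (2 * C + 2)) * |dE lam (i + 2 + (m + 3)) g|) := by
    calc (|lam / 2| * |lam|) * ((lam / 2) ^ 2 * |lam| * |dE lam (r + 1) g| * |dE l' (m + 3) t'|)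
        = |lam / 2| * (|lam| * |dE lam (r + 1) g|) *
          ((lam / 2) ^ 2 * (|lam| * |dE l' (m + 3) t'|)) := by ring
      _ ≤ (1 + C + 2 * C ^ 2) * νf * (((C + C ^ 2) * (2 * C + 2)) * νb) := m1
      _ = (1 + C + 2 * C ^ 2) * ((C + C ^ 2) * (2 * C + 2)) * (νf * νb) := by ring
      _ ≤ _ := m2
      _ = _ := by ring
  exact le_of_mul_le_mul_left m3 hpos

/-- bounded ratios over four steps -/
lemma ratio4 {lam C K : ℝ} (hC : 1 ≤ C) (hK : 1 ≤ K) {r : ℕ} {g : ℝ}
    (hb : ∀ j, j ≤ r + 5 → |tr lam j g| ≤ C)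
    (h1 : |dE lam (r - 1) g| ≤ K * |dE lam r g|) (h2 : |dE lam (r + 1) g| ≤ K * |dE lam r g|)
    (hr : 1 ≤ r) : ∀ i, i ≤ 4 → |dE lam (r + i) g| ≤ (5 * C) ^ i * K * |dE lam r g| := by
  have step : ∀ j, |tr lam (j + 1) g| ≤ C → |tr lam (j + 2) g| ≤ C →
      |dE lam (j + 3) g| ≤ 2 * C * |dE lam (j + 2) g| + 2 * C * |dE lam (j + 1) g| +
        |dE lam j g| := by
    intro j a1 a2
    rw [dE_rec]
    calc |2 * dE lam (j + 2) g * tr lam (j + 1) g + 2 * tr lam (j + 2) g * dE lam (j + 1) g -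
          dE lam j g| ≤ |2 * dE lam (j + 2) g * tr lam (j + 1) g +
          2 * tr lam (j + 2) g * dE lam (j + 1) g| + |dE lam j g| := abs_sub _ _
      _ ≤ |2 * dE lam (j + 2) g * tr lam (j + 1) g| +
          |2 * tr lam (j + 2) g * dE lam (j + 1) g| + |dE lam j g| := by
        gcongr; exact abs_add_le _ _
      _ ≤ _ := by
        rw [abs_mul, abs_mul, abs_mul, abs_mul, abs_two]
        have b1 := mul_le_mul_of_nonneg_left a1 (abs_nonneg (dE lam (j + 2) g))
        have b2 := mul_le_mul_of_nonneg_right a2 (abs_nonneg (dE lam (j + 1) g))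
        nlinarith
  set D := |dE lam r g| with hD
  have hD0 : 0 ≤ D := abs_nonneg _
  obtain ⟨r, rfl⟩ : ∃ j, r = j + 1 := ⟨r - 1, by omega⟩
  rw [show r + 1 - 1 = r by omega] at h1
  have hKD : D ≤ K * D := by nlinarith
  have g0 : |dE lam (r + 1) g| ≤ K * D := hKD
  have g1 : |dE lam (r + 2) g| ≤ (5 * C) * (K * D) := by
    refine le_trans h2 ?_
    have : 0 ≤ K * D := by positivity
    nlinarith
  have g2 : |dE lam (r + 3) g| ≤ (5 * C) ^ 2 * (K * D) := by
    have := step r (hb _ (by omega)) (hb _ (by omega))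
    have h2' : |dE lam (r + 2) g| ≤ K * D := h2
    have e0 : 0 ≤ K * D := by positivity
    nlinarith [mul_nonneg (by linarith : 0 ≤ C) e0, mul_nonneg (by nlinarith : 0 ≤ C ^ 2 - 1) e0]
  have g3 : |dE lam (r + 4) g| ≤ (5 * C) ^ 3 * (K * D) := by
    have := step (r + 1) (hb _ (by omega)) (hb _ (by omega))
    have h2' : |dE lam (r + 2) g| ≤ K * D := h2
    have e0 : 0 ≤ K * D := by positivity
    have e1 : |dE lam (r + 1 + 3) g| ≤ 2 * C * ((5 * C) ^ 2 * (K * D)) + 2 * C * (K * D) + K * D := by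
      refine le_trans this ?_
      have := mul_le_mul_of_nonneg_left g2 (by linarith : 0 ≤ 2 * C)
      have := mul_le_mul_of_nonneg_left h2' (by linarith : 0 ≤ 2 * C)
      have e : r + 1 + 2 = r + 3 := by ring
      have e' : r + 1 + 1 = r + 2 := by ring
      rw [e, e']
      linarith
    refine le_trans e1 ?_
    have hc3 : 1 ≤ C ^ 3 := one_le_pow₀ hC
    have hc1 : C ≤ C ^ 3 := by nlinarith [sq_nonneg C]
    have : 0 ≤ 75 * C ^ 3 - 2 * C - 1 := by linarith
    nlinarith [mul_nonneg this e0]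
  have g4 : |dE lam (r + 5) g| ≤ (5 * C) ^ 4 * (K * D) := by
    have := step (r + 2) (hb _ (by omega)) (hb _ (by omega))
    have e0 : 0 ≤ K * D := by positivity
    have h2' : |dE lam (r + 2) g| ≤ K * D := h2
    have e1 : |dE lam (r + 2 + 3) g| ≤ 2 * C * ((5 * C) ^ 3 * (K * D)) +
        2 * C * ((5 * C) ^ 2 * (K * D)) + K * D := by
      refine le_trans this ?_
      have := mul_le_mul_of_nonneg_left g3 (by linarith : 0 ≤ 2 * C)
      have := mul_le_mul_of_nonneg_left g2 (by linarith : 0 ≤ 2 * C)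
      have e : r + 2 + 2 = r + 4 := by ring
      have e' : r + 2 + 1 = r + 3 := by ring
      rw [e, e']
      linarith
    refine le_trans e1 ?_
    have hc4 : 1 ≤ C ^ 4 := one_le_pow₀ hC
    have hc3 : C ^ 3 ≤ C ^ 4 := pow_le_pow_right₀ hC (by norm_num)
    have : 0 ≤ 375 * C ^ 4 - 50 * C ^ 3 - 1 := by linarith
    nlinarith [mul_nonneg this e0]
  intro i hi
  interval_cases i
  · simpa using g0
  · have : r + 1 + 1 = r + 2 := by ring
    rw [this]; linarith
  · have : r + 1 + 2 = r + 3 := by ring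
    rw [this]; linarith
  · have : r + 1 + 3 = r + 4 := by ring
    rw [this]; linarith
  · have : r + 1 + 4 = r + 5 := by ring
    rw [this]; linarith

theorem k1 (hDu : SDu) (hBd : SBd) (hRt : SRt) : SK1 := by
  intro lam hl
  have hδ : lam / 2 ≠ 0 := by
    intro h; apply hl; linarith
  obtain ⟨C, hC, hB⟩ := hBd lam hl
  obtain ⟨K0, hK0, hR⟩ := hRt lam hl 1 zero_le_one (one_lt_cc hδ)
  set K := 4 * C + K0 * (1 + C) with hKdef
  have hK : 1 ≤ K := by nlinarith
  set D := (1 + C + 2 * C ^ 2) * ((C + C ^ 2) * (2 * C + 2)) with hD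
  have hD0 : 0 < D := by positivity
  set M := (5 * C) ^ 4 * K with hM
  have hM0 : 0 < M := by positivity
  have hδ2 : 0 < (lam / 2) ^ 2 := by positivity
  have hl0 : 0 < |lam| := abs_pos.2 hl
  refine ⟨(lam / 2) ^ 2 * |lam| / (D * M), by positivity, ?_⟩
  intro k m hk hm g hg hz
  obtain ⟨m, rfl⟩ : ∃ j, m = j + 3 := ⟨m - 3, by omega⟩
  obtain ⟨hb, hor⟩ := hB (k + (m + 3)) (by omega) g (by rw [hg]; simp)
  -- a good level
  obtain ⟨r, hr3, hr4, hr2, hrg⟩ : ∃ r, r + 3 ≤ k ∧ k ≤ r + 4 ∧ 2 ≤ r ∧ |tr lam r g| ≤ 1 := by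
    rcases hor (k - 4) (by omega) with h | h
    · exact ⟨k - 4, by omega, by omega, by omega, h⟩
    · exact ⟨k - 4 + 1, by omega, by omega, by omega, h⟩
  have core := k1_core hl hC hDu (by omega : 1 ≤ r) hr3 hr4 hg hb
  -- ratios
  have hrat : |dE lam (r - 1) g| ≤ K * |dE lam r g| ∧ |dE lam (r + 1) g| ≤ K * |dE lam r g| := by
    have hd0 : 0 ≤ |dE lam r g| := abs_nonneg _
    rcases Nat.lt_or_ge r 3 with h | h
    · obtain rfl : r = 2 := by omega
      have e1 : dE lam (2 - 1) g = 1 / 2 := dE_one lam g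
      have e2 : dE lam 2 g = 1 / 2 := dE_two lam g
      have e3 : dE lam (2 + 1) g = tr lam 1 g + tr lam 2 g := by
        have := dE_rec lam 0 g
        simp only [zero_add] at this
        rw [show 2 + 1 = 3 by norm_num, this, dE_two, dE_one, dE_zero]; ring
      rw [e1, e2, e3]
      have a1 := hb 1 (by omega)
      have a2 := hb 2 (by omega)
      have e4 : |(1:ℝ) / 2| = 1 / 2 := abs_of_pos (by norm_num)
      rw [e4]
      refine ⟨by linarith, le_trans (abs_add_le _ _) ?_⟩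
      have : 0 ≤ K0 * (1 + C) := by positivity
      rw [hKdef]
      linarith
    · obtain ⟨h1, h2⟩ := hR r h g hrg
      have h3 := hb (r - 1) (by omega)
      constructor
      · refine le_trans h1 (mul_le_mul_of_nonneg_right ?_ hd0)
        rw [hKdef]; nlinarith
      · refine le_trans h2 (mul_le_mul_of_nonneg_right ?_ hd0)
        have : K0 * (1 + |tr lam (r - 1) g|) ≤ K0 * (1 + C) :=
          mul_le_mul_of_nonneg_left (by linarith) (by linarith)
        rw [hKdef]; linarith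
  have h4 : |dE lam k g| ≤ M * |dE lam r g| := by
    have := ratio4 hC hK (r := r) (fun j hj => hb j (by omega)) hrat.1 hrat.2 (by omega)
    rcases (by omega : k = r + 3 ∨ k = r + 4) with h | h
    · rw [h]
      refine le_trans (this 3 (by norm_num)) ?_
      have : (5 * C) ^ 3 ≤ (5 * C) ^ 4 := pow_le_pow_right₀ (by linarith) (by norm_num)
      have := mul_le_mul_of_nonneg_right this (by linarith : 0 ≤ K)
      exact mul_le_mul_of_nonneg_right this (abs_nonneg _)
    · rw [h]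
      exact this 4 (le_refl _)
  -- conclusion
  rw [div_mul_eq_mul_div, div_mul_eq_mul_div, div_le_iff₀ (by positivity)]
  have n1 := mul_le_mul_of_nonneg_left h4
    (by positivity : 0 ≤ (lam / 2) ^ 2 * |lam| *
      |dE (dl lam (k + (m + 3)) g) (m + 3) (dt lam (k + (m + 3)) g)|)
  have n2 := mul_le_mul_of_nonneg_left core hM0.le
  calc (lam / 2) ^ 2 * |lam| * |dE lam k g| *
      |dE (dl lam (k + (m + 3)) g) (m + 3) (dt lam (k + (m + 3)) g)|
      = (lam / 2) ^ 2 * |lam| * |dE (dl lam (k + (m + 3)) g) (m + 3) (dt lam (k + (m + 3)) g)| *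
        |dE lam k g| := by ring
    _ ≤ _ := n1
    _ = M * ((lam / 2) ^ 2 * |lam| * |dE lam r g| *
        |dE (dl lam (k + (m + 3)) g) (m + 3) (dt lam (k + (m + 3)) g)|) := by ring
    _ ≤ _ := n2
    _ = |dE lam (k + (m + 3)) g| * (D * M) := by ring

end Pool.Agent.W745.Fib
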